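import Mathlib
import Pool.Agent.Lib.Pf72953f.CompL

/-!
MODULE Pf72953h.Clo: in a compositum `L = C·E` of fields which are algebraically independent over `B`, `B` algebraically closed in
`E`, the field `C` is algebraically closed.  The proof is the one of `Comp.closed` (Pf72953f/CompL.lean).
-/

set_option autoImplicit false

open scoped TensorProduct

namespace Pf72953.Fib

variable {B C E L ι : Type*} [Field B] [Field C] [Field E] [Field L]
  [Algebra B C] [Algebra B E] [Algebra B L] [Algebra C L] [Algebra E L] [IsScalarTower B C L]
  [IsScalarTower B E L] [Fintype ι] [CharZero B] [CharZero C]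

open CompLAux

theorem Comp.closed_left [Algebra.EssFiniteType B L] (h : Comp B C E L)
    (hE : ClosedIn B E) {s : ι → E} (hs : IsTranscendenceBasis B s) : ClosedIn C L := by
  intro z hz
  obtain ⟨p, q, hq, hzq⟩ := h.frac z
  have hzC : z ∈ algebraicClosure C L := mem_algebraicClosure_iff.2 hz
  have hsC := (h.tb hs).1.algebraicClosure
  have : CharZero (algebraicClosure C L) :=
    charZero_of_injective_algebraMap (algebraMap C (algebraicClosure C L)).injective
  have : IsScalarTower B (algebraicClosure C L) L :=
    IsScalarTower.of_algebraMap_eq fun b => rfl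
  have h1 := linInd_right (C := algebraicClosure C L) hE hs hsC
    (Module.Basis.ofVectorSpace B E).linearIndependent
  have hP := pmap_repr (L := L) (Module.Basis.ofVectorSpace B E) p
  have hQ := pmap_repr (L := L) (Module.Basis.ofVectorSpace B E) q
  set cp := (Algebra.TensorProduct.basis C (Module.Basis.ofVectorSpace B E)).repr p with hcp
  set cq := (Algebra.TensorProduct.basis C (Module.Basis.ofVectorSpace B E)).repr q with hcq
  have hlin : ∀ c : _ →₀ C, Finsupp.linearCombination (algebraicClosure C L)
      (fun g => algebraMap E L (Module.Basis.ofVectorSpace B E g))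
      (c.mapRange (algebraMap C (algebraicClosure C L)) (map_zero _)) =
      Finsupp.linearCombination C (fun g => algebraMap E L (Module.Basis.ofVectorSpace B E g)) c := by
    intro c
    rw [Finsupp.linearCombination_apply, Finsupp.linearCombination_apply,
      Finsupp.sum_mapRange_index (by intro g; rw [zero_smul])]
    refine Finset.sum_congr rfl fun g _ => ?_
    dsimp only
    rw [algebraMap_smul]
  have h2 : Finsupp.linearCombination (algebraicClosure C L)
      (fun g => algebraMap E L (Module.Basis.ofVectorSpace B E g))
      (cp.mapRange (algebraMap C (algebraicClosure C L)) (map_zero _) -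
        (⟨z, hzC⟩ : algebraicClosure C L) •
          cq.mapRange (algebraMap C (algebraicClosure C L)) (map_zero _)) = 0 := by
    rw [map_sub, map_smul, hlin, hlin, ← hP, ← hQ]
    change pmap B C E L p - z * pmap B C E L q = 0
    rw [hzq, div_mul_cancel₀ _ hq, sub_self]
  have h3 := (linearIndependent_iff.1 h1) _ h2
  have hq0 : cq ≠ 0 := by
    intro h0
    apply hq
    rw [hQ, h0, map_zero]
  obtain ⟨g, hg⟩ := Finsupp.ne_iff.1 hq0
  rw [Finsupp.zero_apply] at hg
  have h4 := DFunLike.congr_fun h3 g
  rw [Finsupp.sub_apply, Finsupp.smul_apply, Finsupp.mapRange_apply, Finsupp.mapRange_apply,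
    Finsupp.zero_apply, sub_eq_zero] at h4
  have h5 : algebraMap C L (cp g) = z * algebraMap C L (cq g) := congrArg Subtype.val h4
  refine ⟨cp g / cq g, ?_⟩
  rw [map_div₀, h5, mul_div_assoc, div_self, mul_one]
  rwa [Ne, map_eq_zero]

end Pf72953.Fib
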