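import Mathlib
import Pool.Agent.Lib.Pf72953f.Comp
import Pool.Agent.Lib.Pf72953f.Rel
import Pool.Agent.Lib.Pf72953r.SubFG

/-!
MODULE Pf72953h.Sub: subfields of the compositum of two algebraically independent fields.

`K ⊆ A₁ ⊆ G₁`, `K ⊆ A₂ ⊆ G₂`, `L` the compositum of `G₁`, `G₂`, algebraically independent over `K`, `S` that of `A₁` and `A₂`.
-/

set_option autoImplicit false
set_option linter.style.haveILetI false

open Pf72953.Red

namespace Pf72953.Fib

/-- generation over a bigger field -/
theorem adjoin_top_of {K A L : Type*} [Field K] [Field A] [Field L] [Algebra K A] [Algebra K L]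
    [Algebra A L] [IsScalarTower K A L] {X Y : Set L} (hY : IntermediateField.adjoin K Y = ⊤)
    (h : ∀ y ∈ Y, y ∈ IntermediateField.adjoin A X) : IntermediateField.adjoin A X = ⊤ := by
  rw [_root_.eq_top_iff]
  rintro z -
  have hz : z ∈ IntermediateField.adjoin K Y := by rw [hY]; trivial
  induction hz using IntermediateField.adjoin_induction with
  | mem x hx => exact h x hx
  | algebraMap r =>
    rw [IsScalarTower.algebraMap_apply K A L]
    exact IntermediateField.algebraMap_mem _ _
  | add x y _ _ hx hy => exact add_mem hx hy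
  | inv x _ hx => exact inv_mem hx
  | mul x y _ _ hx hy => exact mul_mem hx hy

section

variable {K A₁ A₂ G₁ G₂ S L : Type*} [Field K] [CharZero K] [Field A₁] [Field A₂] [Field G₁]
  [Field G₂] [Field S] [Field L] [Algebra K A₁] [Algebra K A₂] [Algebra K G₁] [Algebra K G₂]
  [Algebra K S] [Algebra K L] [Algebra A₁ G₁] [Algebra A₂ G₂] [Algebra A₁ S] [Algebra A₂ S]
  [Algebra G₁ L] [Algebra G₂ L] [Algebra S L] [Algebra A₁ L] [Algebra A₂ L]
  [IsScalarTower K A₁ G₁] [IsScalarTower K A₂ G₂] [IsScalarTower K G₁ L] [IsScalarTower K G₂ L]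
  [IsScalarTower K A₁ S] [IsScalarTower K A₂ S] [IsScalarTower K S L] [IsScalarTower A₁ G₁ L]
  [IsScalarTower A₂ G₂ L] [IsScalarTower A₁ S L] [IsScalarTower A₂ S L]
  [Algebra.EssFiniteType K G₁] [Algebra.EssFiniteType K G₂] [Algebra.EssFiniteType K L]

omit [CharZero K] in
theorem Comp.sub (h : Comp K G₁ G₂ L) (hgen : IntermediateField.adjoin K
    (Set.range (algebraMap A₁ S) ∪ Set.range (algebraMap A₂ S)) = ⊤) : Comp K A₁ A₂ S := by
  haveI : Algebra.EssFiniteType K A₁ := essFiniteType_sub K A₁ G₁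
  haveI : Algebra.EssFiniteType K A₂ := essFiniteType_sub K A₂ G₂
  haveI : Algebra.EssFiniteType A₁ G₁ := Algebra.EssFiniteType.of_comp K A₁ G₁
  haveI : Algebra.EssFiniteType A₂ G₂ := Algebra.EssFiniteType.of_comp K A₂ G₂
  obtain ⟨x₁, hx₁⟩ := exists_tb K A₁
  obtain ⟨x₂, hx₂⟩ := exists_tb K A₂
  obtain ⟨s₁, hs₁⟩ := exists_tb A₁ G₁
  obtain ⟨s₂, hs₂⟩ := exists_tb A₂ G₂
  have h1 := tb_rel hx₁ hs₁
  have h2 := tb_rel hx₂ hs₂
  have h3 := (h.tbSum h1 h2).1
  set z : Fin (dimension K A₁) ⊕ Fin (dimension K A₂) → S :=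
    Sum.elim (fun a => algebraMap A₁ S (x₁ a)) (fun a => algebraMap A₂ S (x₂ a)) with hz
  have hind : AlgebraicIndependent K z := by
    have h4 := h3.comp (Sum.map Sum.inl Sum.inl)
      (Sum.map_injective.mpr ⟨Sum.inl_injective, Sum.inl_injective⟩)
    have e : (IsScalarTower.toAlgHom K S L : S → L) ∘ z =
        (Sum.elim (fun i => algebraMap G₁ L
          (Sum.elim (fun a => algebraMap A₁ G₁ (x₁ a)) s₁ i)) (fun j => algebraMap G₂ L
          (Sum.elim (fun a => algebraMap A₂ G₂ (x₂ a)) s₂ j))) ∘ Sum.map Sum.inl Sum.inl := by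
      funext p
      rcases p with p | p
      · change algebraMap S L (algebraMap A₁ S (x₁ p)) = algebraMap G₁ L (algebraMap A₁ G₁ (x₁ p))
        rw [← IsScalarTower.algebraMap_apply, ← IsScalarTower.algebraMap_apply]
      · change algebraMap S L (algebraMap A₂ S (x₂ p)) = algebraMap G₂ L (algebraMap A₂ G₂ (x₂ p))
        rw [← IsScalarTower.algebraMap_apply, ← IsScalarTower.algebraMap_apply]
    refine (AlgHom.algebraicIndependent_iff (IsScalarTower.toAlgHom K S L)
      (algebraMap S L).injective).mp ?_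
    change AlgebraicIndependent K ((IsScalarTower.toAlgHom K S L : S → L) ∘ z)
    rw [e]
    exact h4
  have halg : ∀ a : S, IsAlgebraic (Algebra.adjoin K (Set.range z)) a := by
    intro a
    have ha : a ∈ IntermediateField.adjoin K
        (Set.range (algebraMap A₁ S) ∪ Set.range (algebraMap A₂ S)) := by
      rw [hgen]
      trivial
    induction ha using IntermediateField.adjoin_induction with
    | mem x hx =>
      rcases hx with ⟨y, rfl⟩ | ⟨y, rfl⟩
      · exact isAlgebraic_transport hx₁ (Set.range z) (fun l => ⟨Sum.inl l, rfl⟩) y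
      · exact isAlgebraic_transport hx₂ (Set.range z) (fun l => ⟨Sum.inr l, rfl⟩) y
    | algebraMap b =>
      rw [IsScalarTower.algebraMap_apply K (Algebra.adjoin K (Set.range z)) S]
      exact isAlgebraic_algebraMap _
    | add x y _ _ hx hy => exact hx.add hy
    | inv x _ hx => exact hx.inv
    | mul x y _ _ hx hy => exact hx.mul hy
  have htb : IsTranscendenceBasis K z :=
    hind.isTranscendenceBasis_iff_isAlgebraic.2 (Algebra.IsAlgebraic.mk halg)
  refine ⟨?_, hgen⟩
  have := card_eq_of_isTranscendenceBasis htb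
  rw [← this]
  simp

end

end Pf72953.Fib
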