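import Mathlib
import Pool.Agent.Lib.Pf72953f.WUp
import Pool.Agent.Lib.Pf72953f.ProdReg
import Pool.Agent.Lib.Pf72953h.Clo
import Pool.Agent.Lib.Pf72953h.Sub

/-!
MODULE Pf72953h.Form: forms on the external product of two fibrations.

`W₁ ⊆ G₁`, `W₂ ⊆ G₂`, `W = W₁·W₂ ⊆ M₁ = G₁·W₂`, `M₂ = W₁·G₂ ⊆ L = G₁·G₂`.
-/

set_option autoImplicit false
set_option linter.style.haveILetI false

open scoped WithZero

namespace Pf72953.Fib

/-- algebraically independent elements of `E` stay independent over `C` -/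
theorem Comp.indep {B C E L : Type*} [Field B] [Field C] [Field E] [Field L]
    [Algebra B C] [Algebra B E] [Algebra B L] [Algebra C L] [Algebra E L] [IsScalarTower B C L]
    [IsScalarTower B E L] [Algebra.EssFiniteType B L] [Algebra.EssFiniteType B E]
    (h : Comp B C E L) {a : ℕ} {φ : Fin a → E}
    (hφ : AlgebraicIndependent B φ) : AlgebraicIndependent C (fun i => algebraMap E L (φ i)) := by
  obtain ⟨s, hs, hs'⟩ := exists_isTranscendenceBasis_superset (R := B) (s := Set.range φ)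
    hφ.to_subtype_range
  haveI := finite_of_isTranscendenceBasis hs'
  haveI := Fintype.ofFinite s
  have h1 := (h.tb hs').1
  exact h1.comp (fun i : Fin a => (⟨φ i, hs ⟨i, rfl⟩⟩ : s))
    fun i j hij => hφ.injective (congrArg Subtype.val hij)

section

variable {W₁ G₁ W₂ G₂ W M₁ M₂ L : Type*} [Field W₁] [Field G₁] [Field W₂]
  [Field G₂] [Field W] [Field M₁] [Field M₂] [Field L]
  [Algebra W₁ G₁] [Algebra W₁ W] [Algebra W₁ M₁] [Algebra G₁ M₁] [Algebra G₁ L]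
  [Algebra W₂ G₂] [Algebra W₂ W] [Algebra W₂ M₂] [Algebra G₂ M₂]
  [Algebra G₂ L] [Algebra W M₁] [Algebra W M₂] [Algebra W L] [Algebra M₁ L] [Algebra M₂ L]
  [IsScalarTower W₁ W M₁] [IsScalarTower W₁ G₁ M₁] [IsScalarTower W₂ W M₂]
  [IsScalarTower W₂ G₂ M₂] [IsScalarTower W M₁ L] [IsScalarTower W M₂ L] [IsScalarTower G₁ M₁ L]
  [IsScalarTower G₂ M₂ L]

/-- the product of two forms -/
theorem prod_mem [CharZero W₁] [CharZero W₂] [CharZero W] [Algebra.EssFiniteType W₁ G₁] [Algebra.EssFiniteType W₁ M₁]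
    [Algebra.EssFiniteType W₂ G₂] [Algebra.EssFiniteType W₂ M₂] [Algebra.EssFiniteType W M₁]
    [Algebra.EssFiniteType W M₂] [Algebra.EssFiniteType W L] (h₁ : Comp W₁ W G₁ M₁)
    (h₂ : Comp W₂ W G₂ M₂) (h : Comp W M₁ M₂ L) {ι₁ ι₂ : Type*} [Fintype ι₁] [DecidableEq ι₁]
    [Fintype ι₂] [DecidableEq ι₂] {s₁ : ι₁ → G₁} (hs₁ : IsTranscendenceBasis W₁ s₁)
    {s₂ : ι₂ → G₂} (hs₂ : IsTranscendenceBasis W₂ s₂) {m : ℕ} {g₁ : G₁} (hg₁ : g₁ ∈ WReg W₁ s₁ m)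
    {g₂ : G₂} (hg₂ : g₂ ∈ WReg W₂ s₂ m) :
    algebraMap G₁ L g₁ * algebraMap G₂ L g₂ ∈ WReg W
      (Sum.elim (fun i => algebraMap G₁ L (s₁ i)) (fun j => algebraMap G₂ L (s₂ j))) m := by
  have e₁ := WReg_up (K := W) (U := M₁) hs₁ (h₁.tb hs₁) hg₁
  have e₂ := WReg_up (K := W) (U := M₂) hs₂ (h₂.tb hs₂) hg₂
  have e := h.mul_mem_WReg (h₁.tb hs₁) (h₂.tb hs₂) e₁ e₂
  simp only [← IsScalarTower.algebraMap_apply] at e
  exact e

theorem tb_prod [Algebra.EssFiniteType W₁ M₁]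
    [Algebra.EssFiniteType W₂ M₂] [Algebra.EssFiniteType W L] (h₁ : Comp W₁ W G₁ M₁)
    (h₂ : Comp W₂ W G₂ M₂) (h : Comp W M₁ M₂ L) {ι₁ ι₂ : Type*} [Fintype ι₁]
    [Fintype ι₂] {s₁ : ι₁ → G₁} (hs₁ : IsTranscendenceBasis W₁ s₁)
    {s₂ : ι₂ → G₂} (hs₂ : IsTranscendenceBasis W₂ s₂) : IsTranscendenceBasis W
      (Sum.elim (fun i => algebraMap G₁ L (s₁ i)) (fun j => algebraMap G₂ L (s₂ j))) := by
  have e := h.tbSum (h₁.tb hs₁) (h₂.tb hs₂)
  simp only [← IsScalarTower.algebraMap_apply] at e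
  exact e

/-- Kodaira dimensions of the fibres of an external product -/
theorem kod_add [CharZero W₁] [CharZero W₂] [CharZero W] [Algebra.EssFiniteType W₁ G₁] [Algebra.EssFiniteType W₁ M₁]
    [Algebra.EssFiniteType W₂ G₂] [Algebra.EssFiniteType W₂ M₂] [Algebra.EssFiniteType W M₁]
    [Algebra.EssFiniteType W M₂] [Algebra.EssFiniteType W L] (h₁ : Comp W₁ W G₁ M₁)
    (h₂ : Comp W₂ W G₂ M₂) (h : Comp W M₁ M₂ L) {a b : ℕ} (ha : KodairaGE W₁ G₁ a)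
    (hb : KodairaGE W₂ G₂ b) : KodairaGE W L (a + b) := by
  classical
  obtain ⟨s₁, hs₁⟩ := exists_tb W₁ G₁
  obtain ⟨s₂, hs₂⟩ := exists_tb W₂ G₂
  obtain ⟨m₁, hm₁, f₁, hf₁, hne₁, φ₁, hφ₁, hff₁⟩ := ha.exists_coord hs₁
  obtain ⟨m₂, hm₂, f₂, hf₂, hne₂, φ₂, hφ₂, hff₂⟩ := hb.exists_coord hs₂
  have htb := tb_prod h₁ h₂ h hs₁ hs₂
  have hcard := card_eq_of_isTranscendenceBasis htb
  let e : Fin (dimension W L) ≃ Fin (dimension W₁ G₁) ⊕ Fin (dimension W₂ G₂) :=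
    (Fintype.equivFinOfCardEq hcard).symm
  have htb' := (isTranscendenceBasis_equiv e).mpr htb
  -- the functions
  have i₁ := h₁.indep (algebraicIndependent_pow hφ₁ hm₂)
  have i₂ := h₂.indep (algebraicIndependent_pow hφ₂ hm₁)
  have hind := sumElim_indep h.dim (CompAux.alg h) i₁ i₂
  have hind' := hind.comp (finSumFinEquiv.symm : Fin (a + b) → Fin a ⊕ Fin b)
    finSumFinEquiv.symm.injective
  have key : ∀ u ∈ WReg W₁ s₁ m₁, ∀ v ∈ WReg W₂ s₂ m₂,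
      algebraMap G₁ L (u ^ m₂) * algebraMap G₂ L (v ^ m₁) ∈ WReg W
        ((Sum.elim (fun i => algebraMap G₁ L (s₁ i)) (fun j => algebraMap G₂ L (s₂ j))) ∘ e)
        (m₁ * m₂) := by
    intro u hu v hv
    have hv' := WReg.pow hv m₁
    rw [mul_comm m₂ m₁] at hv'
    exact WReg.reindex (prod_mem h₁ h₂ h hs₁ hs₂ (WReg.pow hu m₂) hv') e
  refine KodairaGE.of_coord htb' (m := m₁ * m₂) (Nat.mul_pos hm₁ hm₂) (key _ hf₁ _ hf₂) ?_ hind' ?_
  · rw [map_pow, map_pow]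
    refine mul_ne_zero (pow_ne_zero _ ?_) (pow_ne_zero _ ?_)
    · simpa using hne₁
    · simpa using hne₂
  · intro q
    rw [Function.comp_apply]
    rcases hq : finSumFinEquiv.symm q with l | l
    · have h3 := key _ (hff₁ l) _ hf₂
      rw [mul_pow, map_mul, mul_assoc] at h3
      rw [Sum.elim_inl, ← IsScalarTower.algebraMap_apply]
      exact h3
    · have h3 := key _ hf₁ _ (hff₂ l)
      rw [mul_pow, map_mul, mul_left_comm] at h3
      rw [Sum.elim_inr, ← IsScalarTower.algebraMap_apply]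
      exact h3

end

/-- the base is algebraically closed in the external product -/
theorem closed_prod {W₁ G₁ W₂ G₂ W M₁ L : Type*} [Field W₁] [CharZero W₁] [Field G₁] [Field W₂]
    [CharZero W₂] [Field G₂] [Field W] [CharZero W] [Field M₁] [CharZero M₁] [Field L]
    [Algebra W₁ G₁] [Algebra W₁ W] [Algebra W₁ M₁] [Algebra G₁ M₁] [Algebra W₂ G₂] [Algebra W₂ M₁]
    [Algebra W₂ L] [Algebra G₂ L] [Algebra W M₁] [Algebra W L] [Algebra M₁ L]
    [IsScalarTower W₁ W M₁] [IsScalarTower W₁ G₁ M₁] [IsScalarTower W M₁ L]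
    [IsScalarTower W₂ M₁ L] [IsScalarTower W₂ G₂ L] [Algebra.EssFiniteType W₁ G₁] [Algebra.EssFiniteType W₂ G₂]
    [Algebra.EssFiniteType W₁ M₁] [Algebra.EssFiniteType W₂ L]
    (h₁ : Comp W₁ W G₁ M₁) (h₃ : Comp W₂ M₁ G₂ L) (hc₁ : ClosedIn W₁ G₁) (hc₂ : ClosedIn W₂ G₂) :
    ClosedIn W L := by
  intro z hz
  obtain ⟨s₁, hs₁⟩ := exists_tb W₁ G₁
  obtain ⟨s₂, hs₂⟩ := exists_tb W₂ G₂
  obtain ⟨y, rfl⟩ := h₃.closed_left hc₂ hs₂ z (hz.tower_top M₁)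
  obtain ⟨x, rfl⟩ := h₁.closed_left hc₁ hs₁ y
    ((isAlgebraic_algebraMap_iff (algebraMap M₁ L).injective).1 hz)
  exact ⟨x, IsScalarTower.algebraMap_apply W M₁ L x⟩

end Pf72953.Fib
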