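import Mathlib
import Pool.Agent.Lib.Pf72953f.Kun
import Pool.Agent.Lib.Pf72953f.ProdForm

/-!
MODULE Pf72953h.Upper: the Kodaira dimension of a product of two varieties, upper bounds in the cases `κ ≤ 0`.
-/

set_option autoImplicit false
set_option linter.style.haveILetI false

open scoped WithZero

namespace Pf72953.Fib

section

variable {K G₁ G₂ L : Type*} [Field K] [CharZero K] [Field G₁] [Field G₂] [Field L]
  [Algebra K G₁] [Algebra K G₂] [Algebra K L] [Algebra G₁ L] [Algebra G₂ L] [IsScalarTower K G₁ L]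
  [IsScalarTower K G₂ L] [Algebra.EssFiniteType K G₁] [Algebra.EssFiniteType K G₂]
  [Algebra.EssFiniteType K L]

/-- a nonzero pluricanonical form in given coordinates -/
theorem kod_zero_of {K G ι : Type*} [Field K] [CharZero K] [Field G] [Algebra K G]
    [Algebra.EssFiniteType K G] [Fintype ι] [DecidableEq ι] {s : ι → G}
    (hs : IsTranscendenceBasis K s) {m : ℕ} (hm : 1 ≤ m) {g : G} (hg : g ∈ WReg K s m)
    (hg0 : g ≠ 0) : KodairaGE K G 0 := by
  let e : Fin (dimension K G) ≃ ι :=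
    (Fintype.equivFinOfCardEq (card_eq_of_isTranscendenceBasis hs)).symm
  have hz : IsTranscendenceBasis K (s ∘ e) := (isTranscendenceBasis_equiv e).mpr hs
  exact KodairaGE.of_coord hz hm (WReg.reindex hg e) hg0 (f := fun a : Fin 0 => a.elim0)
    (algebraicIndependent_empty_type_iff.mpr (algebraMap K G).injective) fun a => a.elim0

theorem Comp.kod_zero (h : Comp K G₁ G₂ L) (hc₁ : ClosedIn K G₁) (hc₂ : ClosedIn K G₂)
    (hL : KodairaGE K L 0) : KodairaGE K G₁ 0 ∧ KodairaGE K G₂ 0 := by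
  classical
  haveI : CharZero G₁ := charZero_of_injective_algebraMap (algebraMap K G₁).injective
  haveI : CharZero G₂ := charZero_of_injective_algebraMap (algebraMap K G₂).injective
  obtain ⟨z, hz⟩ := exists_tb K G₁
  obtain ⟨s, hs⟩ := exists_tb K G₂
  have htb := h.tbSum hz hs
  let e : Fin (dimension K L) ≃ Fin (dimension K G₁) ⊕ Fin (dimension K G₂) :=
    (Fintype.equivFinOfCardEq (card_eq_of_isTranscendenceBasis htb)).symm
  have htb' := (isTranscendenceBasis_equiv e).mpr htb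
  obtain ⟨m, hm, f₀, hf₀, hf₀ne, -⟩ := hL.exists_coord htb'
  have h2 := WReg.reindex hf₀ e.symm
  have h3 : ((Sum.elim (fun i => algebraMap G₁ L (z i)) (fun j => algebraMap G₂ L (s j))) ∘ e) ∘
      e.symm = Sum.elim (fun i => algebraMap G₁ L (z i)) (fun j => algebraMap G₂ L (s j)) := by
    funext a
    simp
  rw [h3] at h2
  obtain ⟨n, c, g, hc, hg, hfe⟩ := h.kunneth hc₁ hc₂ hz hs h2
  have hex : ∃ a, algebraMap G₁ L (c a) * algebraMap G₂ L (g a) ≠ 0 := by
    by_contra hcon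
    push Not at hcon
    apply hf₀ne
    rw [hfe]
    exact Finset.sum_eq_zero fun a _ => hcon a
  obtain ⟨a, ha⟩ := hex
  have h4 : c a ≠ 0 := by
    intro h0
    apply ha
    rw [h0, map_zero, zero_mul]
  have h5 : g a ≠ 0 := by
    intro h0
    apply ha
    rw [h0, map_zero, mul_zero]
  exact ⟨kod_zero_of hz hm (hc a) h4, kod_zero_of hs hm (hg a) h5⟩

theorem Comp.kod_one (h : Comp K G₁ G₂ L) (hc₁ : ClosedIn K G₁) (hc₂ : ClosedIn K G₂)
    (h₁ : ¬ KodairaGE K G₁ 1) (h₂ : ¬ KodairaGE K G₂ 1) : ¬ KodairaGE K L 1 := by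
  classical
  intro hL
  haveI : CharZero G₁ := charZero_of_injective_algebraMap (algebraMap K G₁).injective
  haveI : CharZero G₂ := charZero_of_injective_algebraMap (algebraMap K G₂).injective
  obtain ⟨z, hz⟩ := exists_tb K G₁
  obtain ⟨s, hs⟩ := exists_tb K G₂
  have htb := h.tbSum hz hs
  let e : Fin (dimension K L) ≃ Fin (dimension K G₁) ⊕ Fin (dimension K G₂) :=
    (Fintype.equivFinOfCardEq (card_eq_of_isTranscendenceBasis htb)).symm
  have htb' := (isTranscendenceBasis_equiv e).mpr htb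
  obtain ⟨m, hm, f₀, hf₀, hf₀ne, φ, hφ, hφf⟩ := hL.exists_coord htb'
  have h3 : ((Sum.elim (fun i => algebraMap G₁ L (z i)) (fun j => algebraMap G₂ L (s j))) ∘ e) ∘
      e.symm = Sum.elim (fun i => algebraMap G₁ L (z i)) (fun j => algebraMap G₂ L (s j)) := by
    funext a
    simp
  have hback : ∀ f, f ∈ WReg K ((Sum.elim (fun i => algebraMap G₁ L (z i))
      (fun j => algebraMap G₂ L (s j))) ∘ e) m → f ∈ WReg K (Sum.elim
      (fun i => algebraMap G₁ L (z i)) (fun j => algebraMap G₂ L (s j))) m := by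
    intro f hf
    have h2 := WReg.reindex hf e.symm
    rwa [h3] at h2
  obtain ⟨n, c, g, hc, hg, hfe⟩ := h.kunneth hc₁ hc₂ hz hs (hback _ hf₀)
  have hex : ∃ a, algebraMap G₁ L (c a) * algebraMap G₂ L (g a) ≠ 0 := by
    by_contra hcon
    push Not at hcon
    apply hf₀ne
    rw [hfe]
    exact Finset.sum_eq_zero fun a _ => hcon a
  obtain ⟨a₀, ha₀⟩ := hex
  set c₀ := c a₀ with hc₀
  set g₀ := g a₀ with hg₀
  have h4 : c₀ ≠ 0 := by
    intro h0
    apply ha₀
    rw [h0, map_zero, zero_mul]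
  have h5 : g₀ ≠ 0 := by
    intro h0
    apply ha₀
    rw [h0, map_zero, mul_zero]
  have hform : ∀ f ∈ WReg K (Sum.elim (fun i => algebraMap G₁ L (z i))
      (fun j => algebraMap G₂ L (s j))) m,
      ∃ b : K, f = algebraMap K L b * (algebraMap G₁ L c₀ * algebraMap G₂ L g₀) := by
    intro f hf
    obtain ⟨n', c', g', hc', hg', hfe'⟩ := h.kunneth hc₁ hc₂ hz hs hf
    choose b hb using fun a => ProdForm.prop hc₁ hz h₁ hm h4 (hc a₀) (hc' a)
    choose d hd using fun a => ProdForm.prop hc₂ hs h₂ hm h5 (hg a₀) (hg' a)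
    refine ⟨∑ a, b a * d a, ?_⟩
    rw [hfe', map_sum, Finset.sum_mul]
    refine Finset.sum_congr rfl fun a _ => ?_
    rw [hb a, hd a, map_mul, map_mul, map_mul, ← IsScalarTower.algebraMap_apply K G₁ L,
      ← IsScalarTower.algebraMap_apply K G₂ L]
    ring
  obtain ⟨b₀, hb₀⟩ := hform f₀ (hback f₀ hf₀)
  obtain ⟨b₁, hb₁⟩ := hform (φ 0 * f₀) (hback _ (hφf 0))
  have hb₀ne : algebraMap K L b₀ ≠ 0 := by
    intro hz0
    apply hf₀ne
    rw [hb₀, hz0, zero_mul]
  have hφ0 : φ 0 = algebraMap K L (b₁ / b₀) := by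
    rw [map_div₀, eq_div_iff hb₀ne]
    rw [hb₀, ← mul_assoc] at hb₁
    exact mul_right_cancel₀ ha₀ hb₁
  have htr : Transcendental K (φ 0) := hφ.transcendental 0
  apply htr
  rw [hφ0]
  exact isAlgebraic_algebraMap _

end

end Pf72953.Fib
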