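import Mathlib
import Pool.Agent.Lib.Pf72953.Count
import Pool.Agent.Lib.Pf72953h.Form
import Pool.Agent.Lib.Pf72953h.Upper

/-!
MODULE Pf72953h.Add: the Kodaira dimension of a product of two varieties is the sum of the Kodaira dimensions.
-/

set_option autoImplicit false
set_option linter.style.haveILetI false

open scoped WithZero

namespace Pf72953.Fib

section

variable {K G₁ G₂ L : Type*} [Field K] [CharZero K] [Field G₁] [Field G₂] [Field L]
  [Algebra K G₁] [Algebra K G₂] [Algebra K L] [Algebra G₁ L] [Algebra G₂ L] [IsScalarTower K G₁ L]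
  [IsScalarTower K G₂ L] [Algebra.EssFiniteType K G₁] [Algebra.EssFiniteType K G₂]
  [Algebra.EssFiniteType K L]

/-- `κ ≥ a` in given coordinates, for families indexed by any type -/
theorem kod_of {K G ι I : Type*} [Field K] [CharZero K] [Field G] [Algebra K G]
    [Algebra.EssFiniteType K G] [Fintype ι] [DecidableEq ι] [Fintype I] {s : ι → G}
    (hs : IsTranscendenceBasis K s) {m : ℕ} (hm : 1 ≤ m) {g : G} (hg : g ∈ WReg K s m)
    (hg0 : g ≠ 0) {f : I → G} (hf : AlgebraicIndependent K f) (hff : ∀ i, f i * g ∈ WReg K s m)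
    {a : ℕ} (ha : Fintype.card I = a) : KodairaGE K G a := by
  let e : Fin (dimension K G) ≃ ι :=
    (Fintype.equivFinOfCardEq (card_eq_of_isTranscendenceBasis hs)).symm
  have hz : IsTranscendenceBasis K (s ∘ e) := (isTranscendenceBasis_equiv e).mpr hs
  let e' : Fin a ≃ I := (Fintype.equivFinOfCardEq ha).symm
  exact KodairaGE.of_coord hz hm (WReg.reindex hg e) hg0 (f := f ∘ e')
    (hf.comp e' e'.injective) fun i => WReg.reindex (hff (e' i)) e

/-- lower bound -/
theorem Comp.kod_ge (h : Comp K G₁ G₂ L) {a b : ℕ} (ha : KodairaGE K G₁ a)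
    (hb : KodairaGE K G₂ b) : KodairaGE K L (a + b) := by
  classical
  obtain ⟨s₁, hs₁⟩ := exists_tb K G₁
  obtain ⟨s₂, hs₂⟩ := exists_tb K G₂
  obtain ⟨m₁, hm₁, f₁, hf₁, hne₁, φ₁, hφ₁, hff₁⟩ := ha.exists_coord hs₁
  obtain ⟨m₂, hm₂, f₂, hf₂, hne₂, φ₂, hφ₂, hff₂⟩ := hb.exists_coord hs₂
  have htb := h.tbSum hs₁ hs₂
  have i₁ := algebraicIndependent_pow hφ₁ hm₂
  have i₂ := algebraicIndependent_pow hφ₂ hm₁
  have hind := sumElim_indep h.dim (CompAux.alg h) i₁ i₂
  have key : ∀ u ∈ WReg K s₁ m₁, ∀ v ∈ WReg K s₂ m₂,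
      algebraMap G₁ L (u ^ m₂) * algebraMap G₂ L (v ^ m₁) ∈ WReg K
        (Sum.elim (fun i => algebraMap G₁ L (s₁ i)) (fun j => algebraMap G₂ L (s₂ j)))
        (m₁ * m₂) := by
    intro u hu v hv
    have hv' := WReg.pow hv m₁
    rw [mul_comm m₂ m₁] at hv'
    exact h.mul_mem_WReg hs₁ hs₂ (WReg.pow hu m₂) hv'
  refine kod_of htb (Nat.mul_pos hm₁ hm₂) (key _ hf₁ _ hf₂) ?_ hind ?_ (by simp)
  · rw [map_pow, map_pow]
    refine mul_ne_zero (pow_ne_zero _ ?_) (pow_ne_zero _ ?_)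
    · simpa using hne₁
    · simpa using hne₂
  · intro q
    rcases q with l | l
    · have h3 := key _ (hff₁ l) _ hf₂
      rw [mul_pow, map_mul, mul_assoc] at h3
      exact h3
    · have h3 := key _ hf₁ _ (hff₂ l)
      rw [mul_pow, map_mul, mul_left_comm] at h3
      exact h3

theorem isAlgebraic_div_of_mem {K L : Type*} [Field K] [Field L] [Algebra K L] {S : Set L} {x y : L}
    (hx : x ∈ Algebra.adjoin K S) (hy : y ∈ Algebra.adjoin K S) :
    IsAlgebraic (Algebra.adjoin K S) (x / y) := by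
  have h1 : IsAlgebraic (Algebra.adjoin K S) x :=
    isAlgebraic_algebraMap (A := L) (⟨x, hx⟩ : Algebra.adjoin K S)
  have h2 : IsAlgebraic (Algebra.adjoin K S) y :=
    isAlgebraic_algebraMap (A := L) (⟨y, hy⟩ : Algebra.adjoin K S)
  rw [div_eq_mul_inv]
  exact h1.mul h2.inv

/-- upper bound -/
theorem Comp.kod_le (h : Comp K G₁ G₂ L) (hc₁ : ClosedIn K G₁) (hc₂ : ClosedIn K G₂) {c : ℕ}
    (hL : KodairaGE K L c) : ∃ a b, a + b = c ∧ KodairaGE K G₁ a ∧ KodairaGE K G₂ b := by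
  classical
  haveI : CharZero G₁ := charZero_of_injective_algebraMap (algebraMap K G₁).injective
  haveI : CharZero G₂ := charZero_of_injective_algebraMap (algebraMap K G₂).injective
  obtain ⟨z, hz⟩ := exists_tb K G₁
  obtain ⟨s, hs⟩ := exists_tb K G₂
  have htb := h.tbSum hz hs
  let e : Fin (dimension K L) ≃ Fin (dimension K G₁) ⊕ Fin (dimension K G₂) :=
    (Fintype.equivFinOfCardEq (card_eq_of_isTranscendenceBasis htb)).symm
  have htb' := (isTranscendenceBasis_equiv e).mpr htb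
  obtain ⟨m, hm, f₀, hf₀, hf₀ne, φ, hφ, hφf⟩ := hL.exists_coord htb'
  have h3 : ((Sum.elim (fun i => algebraMap G₁ L (z i)) (fun j => algebraMap G₂ L (s j))) ∘ e) ∘
      e.symm = Sum.elim (fun i => algebraMap G₁ L (z i)) (fun j => algebraMap G₂ L (s j)) := by
    funext a
    simp
  have hback : ∀ f, f ∈ WReg K ((Sum.elim (fun i => algebraMap G₁ L (z i))
      (fun j => algebraMap G₂ L (s j))) ∘ e) m → f ∈ WReg K (Sum.elim
      (fun i => algebraMap G₁ L (z i)) (fun j => algebraMap G₂ L (s j))) m := by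
    intro f hf
    have h2 := WReg.reindex hf e.symm
    rwa [h3] at h2
  obtain ⟨n, c', g', hc', hg', hfe⟩ := h.kunneth hc₁ hc₂ hz hs (hback _ hf₀)
  have hex : ∃ a, algebraMap G₁ L (c' a) * algebraMap G₂ L (g' a) ≠ 0 := by
    by_contra hcon
    push Not at hcon
    apply hf₀ne
    rw [hfe]
    exact Finset.sum_eq_zero fun a _ => hcon a
  obtain ⟨a₀, ha₀⟩ := hex
  have hC : c' a₀ ≠ 0 := by
    intro h0
    apply ha₀
    rw [h0, map_zero, zero_mul]
  have hD : g' a₀ ≠ 0 := by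
    intro h0
    apply ha₀
    rw [h0, map_zero, mul_zero]
  set C₀ := c' a₀ with hC₀
  set D₀ := g' a₀ with hD₀
  -- the two sets of ratios
  set S₁ : Set L := {x | ∃ u ∈ WReg K z m, x = algebraMap G₁ L (u / C₀)} with hS₁
  set S₂ : Set L := {x | ∃ v ∈ WReg K s m, x = algebraMap G₂ L (v / D₀)} with hS₂
  have hmem : ∀ f ∈ WReg K (Sum.elim (fun i => algebraMap G₁ L (z i))
      (fun j => algebraMap G₂ L (s j))) m,
      f / (algebraMap G₁ L C₀ * algebraMap G₂ L D₀) ∈ Algebra.adjoin K (S₁ ∪ S₂) := by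
    intro f hf
    obtain ⟨n', c'', g'', hc'', hg'', hfe'⟩ := h.kunneth hc₁ hc₂ hz hs hf
    rw [hfe', Finset.sum_div]
    refine Subalgebra.sum_mem _ fun a _ => ?_
    have h4 : algebraMap G₁ L (c'' a) * algebraMap G₂ L (g'' a) /
        (algebraMap G₁ L C₀ * algebraMap G₂ L D₀) =
        algebraMap G₁ L (c'' a / C₀) * algebraMap G₂ L (g'' a / D₀) := by
      rw [map_div₀, map_div₀, mul_div_mul_comm]
    rw [h4]
    exact Subalgebra.mul_mem _ (Algebra.subset_adjoin (Or.inl ⟨_, hc'' a, rfl⟩))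
      (Algebra.subset_adjoin (Or.inr ⟨_, hg'' a, rfl⟩))
  have halg : ∀ i, IsAlgebraic (Algebra.adjoin K (S₁ ∪ S₂)) (φ i) := by
    intro i
    have h5 := isAlgebraic_div_of_mem (hmem _ (hback _ (hφf i))) (hmem _ (hback _ hf₀))
    have h6 : φ i * f₀ / (algebraMap G₁ L C₀ * algebraMap G₂ L D₀) /
        (f₀ / (algebraMap G₁ L C₀ * algebraMap G₂ L D₀)) = φ i := by
      rw [div_div_div_cancel_right₀ ha₀, mul_div_cancel_right₀ _ hf₀ne]
    rwa [h6] at h5
  obtain ⟨ψ, hψ, hψS⟩ := exists_indep_in_set (S₁ ∪ S₂) φ hφ halg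
  let I₁ := {i : Fin c // ψ i ∈ S₁}
  let I₂ := {i : Fin c // ¬ ψ i ∈ S₁}
  have hI₂ : ∀ i : I₂, ψ i ∈ S₂ := fun i => (hψS i).resolve_left i.2
  choose u hu hu' using fun i : I₁ => i.2
  choose v hv hv' using hI₂
  have hcard : Fintype.card I₁ + Fintype.card I₂ = c := by
    have h7 := Fintype.card_subtype_compl (fun i : Fin c => ψ i ∈ S₁)
    have h8 := Fintype.card_subtype_le (fun i : Fin c => ψ i ∈ S₁)
    rw [Fintype.card_fin] at h7 h8
    change Fintype.card {i : Fin c // ψ i ∈ S₁} + Fintype.card {i : Fin c // ¬ ψ i ∈ S₁} = c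
    omega
  refine ⟨Fintype.card I₁, Fintype.card I₂, hcard, ?_, ?_⟩
  · refine kod_of hz hm (hc' a₀) hC (f := fun i : I₁ => u i / C₀) ?_ (fun i => ?_) rfl
    · have h9 := hψ.comp (Subtype.val : I₁ → Fin c) Subtype.val_injective
      refine (AlgHom.algebraicIndependent_iff (IsScalarTower.toAlgHom K G₁ L)
        (algebraMap G₁ L).injective).mp ?_
      convert h9 using 1
      funext i
      exact (hu' i).symm
    · rw [div_mul_cancel₀ _ hC]
      exact hu i
  · refine kod_of hs hm (hg' a₀) hD (f := fun i : I₂ => v i / D₀) ?_ (fun i => ?_) rfl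
    · have h9 := hψ.comp (Subtype.val : I₂ → Fin c) Subtype.val_injective
      refine (AlgHom.algebraicIndependent_iff (IsScalarTower.toAlgHom K G₂ L)
        (algebraMap G₂ L).injective).mp ?_
      convert h9 using 1
      funext i
      exact (hv' i).symm
    · rw [div_mul_cancel₀ _ hD]
      exact hv i

end

end Pf72953.Fib
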