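import Mathlib
import Pool.Agent.Lib.Pf72953.Core
import Pool.Agent.Lib.Pf72953f.Ruled
import Pool.Agent.Lib.Pf72953h.Upper

/-!
MODULE Pf72953h.Curve: over every field `K` of characteristic zero the curve `y² = x⁵ - 1` has Kodaira dimension one.
-/

set_option autoImplicit false
set_option linter.style.haveILetI false

open scoped WithZero

namespace Pf72953.Fib

universe u

namespace CurveAux

open Polynomial

section local_part

variable {C : Type*} [Field C] {K : Type*} [Field K] [Algebra K C] {w : Valuation C ℤᵐ⁰}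

theorem val_nat [CharZero K] (hw : ∀ c : K, c ≠ 0 → w (algebraMap K C c) = 1) {n : ℕ} (hn : n ≠ 0) :
    w (n : C) = 1 := by
  have h := hw (n : K) (Nat.cast_ne_zero.mpr hn)
  rwa [map_natCast] at h

/-- the forms `dx / y` and `x dx / y` are regular on the curve `y² = x⁵ - 1` -/
theorem local_le [CharZero K] (hw : ∀ c : K, c ≠ 0 → w (algebraMap K C c) = 1)
    (D : Derivation K C C) (hD : ∀ a, w a ≤ 1 → w (D a) ≤ 1) {x y : C} (hy : y ≠ 0)
    (h : y ^ 2 = x ^ 5 - 1) : w (D x / y) ≤ 1 ∧ w (x * (D x / y)) ≤ 1 := by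
  have w2 : w (2 : C) = 1 := by exact_mod_cast val_nat (n := 2) hw two_ne_zero
  have w5 : w (5 : C) = 1 := by exact_mod_cast val_nat (n := 5) hw (by norm_num)
  have w6 : w (6 : C) = 1 := by exact_mod_cast val_nat (n := 6) hw (by norm_num)
  have hder : 2 * y * D y = 5 * x ^ 4 * D x := by
    have h1 := congrArg D h
    rw [map_sub, Derivation.map_one_eq_zero, sub_zero, Derivation.leibniz_pow,
      Derivation.leibniz_pow] at h1
    simp only [nsmul_eq_mul, smul_eq_mul, Nat.cast_ofNat] at h1
    linear_combination h1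
  rcases le_or_gt (w x) 1 with hx | hx
  · have hDx := hD x hx
    have hy1 : w y ≤ 1 := by
      by_contra hcon
      push Not at hcon
      have h1 : 1 < w (y ^ 2) := by
        rw [map_pow]
        exact one_lt_pow₀ hcon two_ne_zero
      rw [h] at h1
      have h2 : w (x ^ 5 - 1) ≤ 1 := by
        refine (w.map_sub _ _).trans (max_le ?_ (by rw [map_one]))
        rw [map_pow]
        exact pow_le_one' hx 5
      exact absurd h1 (not_lt.mpr h2)
    have key : w (D x / y) ≤ 1 := by
      rcases hy1.lt_or_eq with hlt | heq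
      · have hx1 : w x = 1 := by
          have h1 : x ^ 5 = 1 + y ^ 2 := by rw [h]; ring
          have h2 : w (x ^ 5) = 1 := by
            rw [h1]
            have h3 : w (y ^ 2) < w 1 := by
              rw [map_pow, map_one]
              exact pow_lt_one' hlt two_ne_zero
            rw [Valuation.map_add_eq_of_lt_left w h3, map_one]
          rw [map_pow] at h2
          refine le_antisymm hx (not_lt.mp fun hlt' => ?_)
          exact absurd h2 (pow_lt_one' hlt' (by norm_num)).ne
        have hx0 : x ≠ 0 := by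
          rintro rfl
          rw [map_zero] at hx1
          exact zero_ne_one hx1
        have h50 : (5 : C) ≠ 0 := by
          intro h0
          rw [h0, map_zero] at w5
          exact zero_ne_one w5
        have h4 : D x / y = 2 * D y / (5 * x ^ 4) := by
          rw [div_eq_div_iff hy (mul_ne_zero h50 (pow_ne_zero _ hx0))]
          linear_combination -hder
        rw [h4, map_div₀, map_mul, map_mul, map_pow, w2, w5, hx1, one_pow, one_mul, mul_one,
          div_one]
        exact hD y hy1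
      · rw [map_div₀, heq, div_one]
        exact hDx
    refine ⟨key, ?_⟩
    rw [map_mul]
    exact mul_le_one' hx key
  · have hx0 : x ≠ 0 := by
      rintro rfl
      rw [map_zero] at hx
      exact absurd hx (by simp)
    have hv : w x⁻¹ < 1 := by
      rw [map_inv₀]
      exact inv_lt_one_of_one_lt₀ hx
    have hvu : (y * x⁻¹ ^ 3) ^ 2 = x⁻¹ - x⁻¹ ^ 6 := by
      rw [mul_pow, h]
      field_simp
    have hu : w (y * x⁻¹ ^ 3) ≤ 1 := by
      by_contra hcon
      push Not at hcon
      have h1 : 1 < w ((y * x⁻¹ ^ 3) ^ 2) := by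
        rw [map_pow]
        exact one_lt_pow₀ hcon two_ne_zero
      rw [hvu] at h1
      have h2 : w (x⁻¹ - x⁻¹ ^ 6) ≤ 1 := by
        refine (w.map_sub _ _).trans (max_le hv.le ?_)
        rw [map_pow]
        exact pow_le_one' hv.le 6
      exact absurd h1 (not_lt.mpr h2)
    have hDu := hD _ hu
    have hDv : D x⁻¹ = -(x⁻¹ ^ 2) * D x := by
      rw [Derivation.leibniz_inv, smul_eq_mul]
    have h5 : 2 * (y * x⁻¹ ^ 3) * D (y * x⁻¹ ^ 3) = (1 - 6 * x⁻¹ ^ 5) * D x⁻¹ := by
      have h1 := congrArg D hvu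
      rw [map_sub, Derivation.leibniz_pow, Derivation.leibniz_pow] at h1
      simp only [nsmul_eq_mul, smul_eq_mul, Nat.cast_ofNat, pow_one,
        Nat.add_one_sub_one] at h1
      linear_combination h1
    have h6 : (x * (D x / y)) * (1 - 6 * x⁻¹ ^ 5) = -(2 * D (y * x⁻¹ ^ 3)) := by
      rw [hDv] at h5
      have h7 : (1 - 6 * x⁻¹ ^ 5) * D x = -(2 * y * x⁻¹ * D (y * x⁻¹ ^ 3)) := by
        have h8 : x⁻¹ ^ 2 ≠ 0 := pow_ne_zero _ (inv_ne_zero hx0)
        apply mul_left_cancel₀ h8
        linear_combination h5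
      have h9 : (x * (D x / y)) * (1 - 6 * x⁻¹ ^ 5) = x / y * ((1 - 6 * x⁻¹ ^ 5) * D x) := by
        ring
      rw [h9, h7]
      field_simp
    have h10 : w (1 - 6 * x⁻¹ ^ 5) = 1 := by
      have h3 : w (6 * x⁻¹ ^ 5) < w 1 := by
        rw [map_mul, w6, one_mul, map_pow, map_one]
        exact pow_lt_one' hv (by norm_num)
      rw [Valuation.map_sub_eq_of_lt_left w h3, map_one]
    have key : w (x * (D x / y)) ≤ 1 := by
      have h11 := congrArg w h6
      rw [map_mul, h10, mul_one, Valuation.map_neg, map_mul w 2, w2, one_mul] at h11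
      rw [h11]
      exact hDu
    refine ⟨?_, key⟩
    have h12 : D x / y = x⁻¹ * (x * (D x / y)) := by
      field_simp
    rw [h12, map_mul]
    exact mul_le_one' hv.le key

end local_part

section field_part

variable (K : Type u) [Field K] [CharZero K]

/-- `x⁵ - 1` -/
noncomputable def f5 : RatFunc K := algebraMap K[X] (RatFunc K) (X ^ 5 - C 1)

theorem f5_ne : f5 K ≠ 0 := by
  unfold f5
  rw [Ne, FaithfulSMul.algebraMap_eq_zero_iff]
  exact X_pow_sub_C_ne_zero (by norm_num) 1

theorem deg_f5 : RatFunc.intDegree (f5 K) = 5 := by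
  unfold f5
  rw [RatFunc.intDegree_polynomial, natDegree_X_pow_sub_C]
  norm_num

variable {K}

theorem deg_odd {r : RatFunc K} (hr : r ≠ 0) :
    RatFunc.intDegree (r ^ 2 * f5 K) = 2 * RatFunc.intDegree r + 5 := by
  rw [RatFunc.intDegree_mul (pow_ne_zero 2 hr) (f5_ne K), deg_f5, pow_two,
    RatFunc.intDegree_mul hr hr]
  ring

theorem ne_sq (s : RatFunc K) : s ^ 2 ≠ f5 K := by
  intro h
  have hs : s ≠ 0 := by
    rintro rfl
    exact f5_ne K (by rw [← h]; simp)
  have h2 := congrArg RatFunc.intDegree h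
  rw [deg_f5, pow_two, RatFunc.intDegree_mul hs hs] at h2
  omega

theorem ne_C (d : K) {r : RatFunc K} (hr : r ≠ 0) : r ^ 2 * f5 K ≠ RatFunc.C d := by
  intro h
  have h2 := congrArg RatFunc.intDegree h
  rw [deg_odd hr, RatFunc.intDegree_C] at h2
  omega

theorem exists_C {r : RatFunc K} (hr : IsAlgebraic K r) : ∃ c, r = RatFunc.C c := by
  by_contra h
  exact RatFunc.transcendental_of_ne_C r h hr

variable (K)

/-- the equation of the curve -/
noncomputable def P5 : (RatFunc K)[X] := X ^ 2 - C (f5 K)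

theorem irr : Irreducible (P5 K) :=
  X_pow_sub_C_irreducible_of_prime Nat.prime_two fun b => ne_sq b

instance : Fact (Irreducible (P5 K)) := ⟨irr K⟩

/-- the function field of the curve -/
abbrev C5 : Type u := AdjoinRoot (P5 K)

theorem P5_ne : P5 K ≠ 0 := (irr K).ne_zero

theorem P5_deg : (P5 K).natDegree = 2 := natDegree_X_pow_sub_C

theorem eval_P5 {R : Type*} [CommRing R] (g : RatFunc K →+* R) (z : R) :
    eval₂ g z (P5 K) = z ^ 2 - g (f5 K) := by
  unfold P5
  rw [eval₂_sub, eval₂_X_pow, eval₂_C]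

theorem root_sq : (AdjoinRoot.root (P5 K)) ^ 2 = algebraMap (RatFunc K) (C5 K) (f5 K) := by
  have h := AdjoinRoot.eval₂_root (P5 K)
  rw [eval_P5, sub_eq_zero] at h
  exact h

theorem root_ne : AdjoinRoot.root (P5 K) ≠ 0 := by
  intro h
  have h1 := root_sq K
  rw [h, zero_pow two_ne_zero] at h1
  exact f5_ne K ((algebraMap (RatFunc K) (C5 K)).injective (by rw [← h1, map_zero]))

theorem rep (a : C5 K) : ∃ p q : RatFunc K, a = algebraMap (RatFunc K) (C5 K) p +
    algebraMap (RatFunc K) (C5 K) q * AdjoinRoot.root (P5 K) := by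
  obtain ⟨g, rfl⟩ := AdjoinRoot.mk_surjective a
  have hm : (P5 K).Monic := monic_X_pow_sub_C _ two_ne_zero
  have h1 : AdjoinRoot.mk (P5 K) g = AdjoinRoot.mk (P5 K) (g %ₘ P5 K) := by
    rw [AdjoinRoot.mk_eq_mk]
    refine ⟨g /ₘ P5 K, ?_⟩
    have h2 := modByMonic_add_div g (P5 K)
    linear_combination -h2
  have h3 : (g %ₘ P5 K).natDegree ≤ 1 := by
    have h4 : (g %ₘ P5 K).natDegree < (P5 K).natDegree :=
      natDegree_modByMonic_lt _ hm (by
        intro h5
        have h6 := P5_deg K
        rw [h5, natDegree_one] at h6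
        omega)
    rw [P5_deg] at h4
    omega
  obtain ⟨q, p, hqp⟩ := exists_eq_X_add_C_of_natDegree_le_one h3
  refine ⟨p, q, ?_⟩
  rw [h1, hqp, map_add, map_mul, AdjoinRoot.mk_C, AdjoinRoot.mk_C, AdjoinRoot.mk_X, add_comm]
  rfl

theorem closed : ClosedIn K (C5 K) := by
  intro a ha
  obtain ⟨p, q, rfl⟩ := rep K a
  set y := AdjoinRoot.root (P5 K) with hy
  let σ : C5 K →ₐ[RatFunc K] C5 K := AdjoinRoot.liftAlgHom (P5 K)
    (Algebra.ofId (RatFunc K) (C5 K)) (-y) (by
      have h := root_sq K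
      change eval₂ (algebraMap (RatFunc K) (C5 K)) (-y) (P5 K) = 0
      rw [eval_P5, neg_sq, h, sub_self])
  have hσy : σ y = -y := AdjoinRoot.liftAlgHom_root _ _ _ _
  have h1 : IsAlgebraic K (σ (algebraMap (RatFunc K) (C5 K) p +
      algebraMap (RatFunc K) (C5 K) q * y)) := IsAlgebraic.algHom (σ.restrictScalars K) ha
  rw [map_add, map_mul, AlgHom.commutes, AlgHom.commutes, hσy] at h1
  have h2 := ha.add h1
  have h3 : algebraMap (RatFunc K) (C5 K) p + algebraMap (RatFunc K) (C5 K) q * y +
      (algebraMap (RatFunc K) (C5 K) p + algebraMap (RatFunc K) (C5 K) q * -y) =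
      algebraMap (RatFunc K) (C5 K) (2 * p) := by
    rw [map_mul, map_ofNat]
    ring
  rw [h3, isAlgebraic_algebraMap_iff (algebraMap (RatFunc K) (C5 K)).injective] at h2
  obtain ⟨c, hc⟩ := exists_C h2
  have h4 : p = RatFunc.C (c / 2) := by
    rw [map_div₀, ← hc, map_ofNat]
    field_simp
  have h5 := ha.sub h1
  have h6 : algebraMap (RatFunc K) (C5 K) p + algebraMap (RatFunc K) (C5 K) q * y -
      (algebraMap (RatFunc K) (C5 K) p + algebraMap (RatFunc K) (C5 K) q * -y) =
      2 * algebraMap (RatFunc K) (C5 K) q * y := by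
    ring
  rw [h6] at h5
  have h7 := h5.pow 2
  have h8 : (2 * algebraMap (RatFunc K) (C5 K) q * y) ^ 2 =
      algebraMap (RatFunc K) (C5 K) ((2 * q) ^ 2 * f5 K) := by
    rw [mul_pow, root_sq, map_mul, map_pow, map_mul, map_ofNat]
  rw [h8, isAlgebraic_algebraMap_iff (algebraMap (RatFunc K) (C5 K)).injective] at h7
  obtain ⟨d, hd⟩ := exists_C h7
  have h9 : q = 0 := by
    by_contra h0
    exact ne_C d (mul_ne_zero two_ne_zero h0) hd
  refine ⟨c / 2, ?_⟩
  rw [h9, map_zero, zero_mul, add_zero, h4, IsScalarTower.algebraMap_apply K (RatFunc K) (C5 K)]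
  rfl

theorem tbX : IsTranscendenceBasis K
    (fun _ : Unit => algebraMap (RatFunc K) (C5 K) RatFunc.X) := by
  have h1 : IsTranscendenceBasis K (fun _ : Unit => (X : K[X])) :=
    IsTranscendenceBasis.polynomial Unit K
  haveI : Algebra.IsAlgebraic K[X] (RatFunc K) :=
    IsLocalization.isAlgebraic (RatFunc K) (nonZeroDivisors K[X])
  have h2 : IsTranscendenceBasis K (algebraMap K[X] (RatFunc K) ∘ fun _ : Unit => (X : K[X])) :=
    h1.algebraMap_comp
  haveI : FiniteDimensional (RatFunc K) (C5 K) := (AdjoinRoot.powerBasis (P5_ne K)).finite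
  haveI : Algebra.IsAlgebraic (RatFunc K) (C5 K) := inferInstance
  have h3 : IsTranscendenceBasis K (algebraMap (RatFunc K) (C5 K) ∘
      (algebraMap K[X] (RatFunc K) ∘ fun _ : Unit => (X : K[X]))) := h2.algebraMap_comp
  convert h3 using 1
  funext o
  change _ = algebraMap (RatFunc K) (C5 K) (algebraMap K[X] (RatFunc K) X)
  rw [RatFunc.algebraMap_X]

end field_part

end CurveAux

open CurveAux in
theorem exists_curve (K : Type u) [Field K] [CharZero K] :
    ∃ (C : Type u) (_ : Field C) (_ : Algebra K C) (_ : Algebra.EssFiniteType K C),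
      ClosedIn K C ∧ dimension K C = 1 ∧ KodairaGE K C 1 := by
  haveI e1 : Algebra.EssFiniteType K (RatFunc K) := RuledAux.ess
  haveI : FiniteDimensional (RatFunc K) (C5 K) := (AdjoinRoot.powerBasis (P5_ne K)).finite
  haveI e2 : Algebra.EssFiniteType K (C5 K) := Algebra.EssFiniteType.comp K (RatFunc K) (C5 K)
  have htb := tbX K
  have hdim : dimension K (C5 K) = 1 := by
    rw [← card_eq_of_isTranscendenceBasis htb]
    rfl
  refine ⟨C5 K, inferInstance, inferInstance, e2, closed K, hdim, ?_⟩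
  set x := algebraMap (RatFunc K) (C5 K) RatFunc.X with hx
  set y := AdjoinRoot.root (P5 K) with hy
  have heq : y ^ 2 = x ^ 5 - 1 := by
    rw [hy, root_sq, hx, f5, ← map_pow, ← map_one (algebraMap (RatFunc K) (C5 K)), ← map_sub]
    congr 1
    rw [map_sub, map_pow, RatFunc.algebraMap_X, map_one, map_one]
  have hy0 : y ≠ 0 := root_ne K
  let e : Fin (dimension K (C5 K)) ≃ Unit :=
    (Fintype.equivFinOfCardEq (card_eq_of_isTranscendenceBasis htb)).symm
  have htb' := (isTranscendenceBasis_equiv e).mpr htb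
  have hjac : ∀ (c : Unit → C5 K) (hc : IsTranscendenceBasis K c),
      jac hc (fun _ : Unit => x) = pd hc () x := by
    intro c hc
    rw [jac_eq_det, Matrix.det_unique]
    rfl
  have key : ∀ g : C5 K, (∀ (w : Valuation (C5 K) ℤᵐ⁰) (D : Derivation K (C5 K) (C5 K)),
      (∀ c : K, c ≠ 0 → w (algebraMap K (C5 K) c) = 1) → (∀ a, w a ≤ 1 → w (D a) ≤ 1) →
      w (g * D x) ≤ 1) → g ∈ WReg K (fun _ : Unit => x) 1 := by
    intro g hg w hw c hc
    rw [hjac c hc.tb, pow_one, ← map_mul]
    exact hg w (pd hc.tb ()) hw.const (fun a ha => hc.der () a ha)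
  refine KodairaGE.of_coord htb' (m := 1) le_rfl (f₀ := y⁻¹) (f := fun _ => x)
    (WReg.reindex (key _ ?_) e) (inv_ne_zero hy0) ?_ (fun _ => WReg.reindex (key _ ?_) e)
  · intro w D hc hD
    have h := (local_le hc D hD hy0 heq).1
    rwa [div_eq_mul_inv, mul_comm] at h
  · exact htb.1.comp (fun _ : Fin 1 => ()) (fun a b _ => Subsingleton.elim a b)
  · intro w D hc hD
    have h := (local_le hc D hD hy0 heq).2
    rwa [div_eq_mul_inv, mul_comm (D x), ← mul_assoc] at h

end Pf72953.Fib
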