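import Mathlib
import Pool.Agent.Lib.Pf72953r.FDefs

/-!
The weak forms of Iitaka's conjecture: definitions.

`k` is a field of characteristic zero; `K` runs through the finitely generated extensions of `k` and `W ⊆ G` through the function
fields over `K` of fibrations of geometrically irreducible varieties over `K` (`K` and `W` are algebraically closed in `G`); `κ(W/K)`,
`κ(G/K)` are the Kodaira dimensions of base and total space, `κ(G/W)` is the one of the fibre.
-/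

set_option autoImplicit false

open scoped WithZero
open Pf72953 Pf72953.Fib Pf72953.Mov

namespace Pf72953.Red

universe u

/-- `κ(G/K) ≤ M ≤ κ(W/K)` implies `κ(G/W) ≤ N`, for `dim W ≤ b`, `dim (G/W) ≤ d`, `dim G ≤ n` -/
def BoundedFibre (k : Type u) [Field k] (M N b d n : ℕ) : Prop :=
  ∀ (K W G : Type u) [Field K] [Field W] [Field G] [Algebra k K] [Algebra K W] [Algebra K G]
    [Algebra W G] [IsScalarTower K W G] [Algebra.EssFiniteType k K] [Algebra.EssFiniteType K G],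
    ClosedIn K G → ClosedIn W G → DimLE K W G b d n →
    ((M : ℕ∞) : WithBot ℕ∞) ≤ kodairaDim K W → kodairaDim K G ≤ ((M : ℕ∞) : WithBot ℕ∞) →
    kodairaDim W G ≤ ((N : ℕ∞) : WithBot ℕ∞)

/-- `κ(G/W) = o(dim G)` for the fibrations with `κ(G/K) ≤ M ≤ κ(W/K)`: for every `δ` there is a constant `C` with
`δ κ(G/W) ≤ dim G + C` -/
def SublinearFibre (k : Type u) [Field k] (M : ℕ) : Prop :=
  ∀ δ : ℕ, ∃ C : ℕ, ∀ (K W G : Type u) [Field K] [Field W] [Field G] [Algebra k K] [Algebra K W]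
    [Algebra K G] [Algebra W G] [IsScalarTower K W G] [Algebra.EssFiniteType k K]
    [Algebra.EssFiniteType K G], ClosedIn K G → ClosedIn W G →
    ((M : ℕ∞) : WithBot ℕ∞) ≤ kodairaDim K W → kodairaDim K G ≤ ((M : ℕ∞) : WithBot ℕ∞) →
    ∀ c : ℕ, ((c : ℕ∞) : WithBot ℕ∞) ≤ kodairaDim W G → δ * c ≤ dimension K G + C

/-- `max(κ(G/K), 0) ≥ e` -/
def AtLeast (K G : Type*) [Field K] [Field G] [Algebra K G] (e : ℕ) : Prop :=
  e = 0 ∨ ((e : ℕ∞) : WithBot ℕ∞) ≤ kodairaDim K G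

/-- a fraction of Iitaka's inequality: `max(κ(G/K), 0) ≥ κ(G/W) / q - o(dim G)` for the fibrations with `κ(W/K) ≥ M` and
`κ(G/W) ≥ M`, i.e. for every `δ` there is a constant `C` with `δ κ(G/W) ≤ δ q max(κ(G/K), 0) + dim G + C` -/
def FractionalIitaka (k : Type u) [Field k] (q M : ℕ) : Prop :=
  ∀ δ : ℕ, ∃ C : ℕ, ∀ (K W G : Type u) [Field K] [Field W] [Field G] [Algebra k K] [Algebra K W]
    [Algebra K G] [Algebra W G] [IsScalarTower K W G] [Algebra.EssFiniteType k K]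
    [Algebra.EssFiniteType K G], ClosedIn K G → ClosedIn W G →
    ((M : ℕ∞) : WithBot ℕ∞) ≤ kodairaDim K W → ((M : ℕ∞) : WithBot ℕ∞) ≤ kodairaDim W G →
    ∀ φ : ℕ, ((φ : ℕ∞) : WithBot ℕ∞) ≤ kodairaDim W G →
      ∃ e : ℕ, AtLeast K G e ∧ δ * φ ≤ δ * q * e + dimension K G + C

/-- `κ(G/K) ≥ (1 - 1/q) dim G` -/
def AlmostGeneral (K G : Type*) [Field K] [Field G] [Algebra K G] (q : ℕ) : Prop :=
  ∃ c : ℕ, ((c : ℕ∞) : WithBot ℕ∞) ≤ kodairaDim K G ∧
    q * dimension K G ≤ q * c + dimension K G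

/-- Iitaka's inequality for the varieties over `k` -/
def IitakaOver (k : Type u) [Field k] : Prop :=
  ∀ (B E : Type u) [Field B] [Field E] [Algebra k B] [Algebra k E] [Algebra B E]
    [IsScalarTower k B E] [Algebra.EssFiniteType k E], ClosedIn k E → ClosedIn B E →
    IitakaIneq k B E

/-- Iitaka's inequality up to `o(dim E)` for the varieties over `k` if base, fibre and total space are almost of general type: if
`κ(B) ≥ (1 - 1/q) dim B`, `κ(E/B) ≥ (1 - 1/q) dim (E/B)` and either `κ(E) = -∞` or `κ(E) ≥ (1 - 1/q) dim E`, then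
`max(κ(E), 0) ≥ κ(B) + κ(E/B) - o(dim E)`, i.e. for every `δ` there is a constant `C` with
`δ (κ(B) + κ(E/B)) ≤ δ max(κ(E), 0) + dim E + C` -/
def AlmostIitaka (k : Type u) [Field k] (q : ℕ) : Prop :=
  ∀ δ : ℕ, ∃ C : ℕ, ∀ (B E : Type u) [Field B] [Field E] [Algebra k B] [Algebra k E] [Algebra B E]
    [IsScalarTower k B E] [Algebra.EssFiniteType k E], ClosedIn k E → ClosedIn B E →
    AlmostGeneral k B q → AlmostGeneral B E q → (kodairaDim k E = ⊥ ∨ AlmostGeneral k E q) →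
    ∀ β φ : ℕ, ((β : ℕ∞) : WithBot ℕ∞) ≤ kodairaDim k B → ((φ : ℕ∞) : WithBot ℕ∞) ≤ kodairaDim B E →
      ∃ e : ℕ, AtLeast k E e ∧ δ * (β + φ) ≤ δ * e + dimension k E + C

/-- `κ(G/K) ≥ dim G - a` -/
def GeneralUpTo (K G : Type*) [Field K] [Field G] [Algebra K G] (a : ℕ) : Prop :=
  ∃ c : ℕ, ((c : ℕ∞) : WithBot ℕ∞) ≤ kodairaDim K G ∧ dimension K G ≤ c + a

/-- Iitaka's inequality up to the constant `N` for the varieties over `k` if base, fibre and total space are of general type up to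
`g`: if `κ(B) ≥ dim B - g(dim B)`, `κ(E/B) ≥ dim (E/B) - g(dim (E/B))` and either `κ(E) = -∞` or `κ(E) ≥ dim E - g(dim E)`, then
`max(κ(E), 0) ≥ κ(B) + κ(E/B) - N` -/
def NearIitaka (k : Type u) [Field k] (g : ℕ → ℕ) (N : ℕ) : Prop :=
  ∀ (B E : Type u) [Field B] [Field E] [Algebra k B] [Algebra k E] [Algebra B E]
    [IsScalarTower k B E] [Algebra.EssFiniteType k E], ClosedIn k E → ClosedIn B E →
    GeneralUpTo k B (g (dimension k B)) → GeneralUpTo B E (g (dimension B E)) →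
    (kodairaDim k E = ⊥ ∨ GeneralUpTo k E (g (dimension k E))) →
    ∀ β φ : ℕ, ((β : ℕ∞) : WithBot ℕ∞) ≤ kodairaDim k B → ((φ : ℕ∞) : WithBot ℕ∞) ≤ kodairaDim B E →
      ∃ e : ℕ, AtLeast k E e ∧ β + φ ≤ e + N

/-- Iitaka's inequality for the total spaces with a smooth complete model, of any dimension -/
def IitakaModel (k : Type u) [Field k] : Prop :=
  ∀ (K W G : Type u) [Field K] [Field W] [Field G] [Algebra k K] [Algebra K W] [Algebra K G]
    [Algebra W G] [IsScalarTower K W G] [Algebra.EssFiniteType k K] [Algebra.EssFiniteType K G],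
    SmoothModel K G → ClosedIn K G → ClosedIn W G → IitakaIneq K W G

/-- there is a fibration `G/W` over `K` with `dim W = b`, `dim (G/W) = d`, `κ(W/K) ≥ β`, `κ(G/W) ≥ φ` and `κ(G/K) = x` -/
def HasFibration (K : Type u) [Field K] (b d β φ : ℕ) (x : WithBot ℕ∞) : Prop :=
  ∃ (W G : Type u) (_ : Field W) (_ : Field G) (_ : Algebra K W)
    (_ : Algebra K G) (_ : Algebra W G) (_ : IsScalarTower K W G)
    (_ : Algebra.EssFiniteType K G), ClosedIn K G ∧ ClosedIn W G ∧
    dimension K W = b ∧ dimension W G = d ∧ ((β : ℕ∞) : WithBot ℕ∞) ≤ kodairaDim K W ∧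
    ((φ : ℕ∞) : WithBot ℕ∞) ≤ kodairaDim W G ∧ kodairaDim K G = x

/-- Iitaka's inequality fails linearly: there are `b`, `d`, `x ≤ 0` and `K` such that for all `r ≥ 1` there is a fibration `G/W` over
`K` with `dim W = r b`, `dim (G/W) = r d`, `κ(W/K) ≥ 0`, `κ(G/W) ≥ r` and `κ(G/K) = x` -/
def LinearFailure (k : Type u) [Field k] : Prop :=
  ∃ (b d : ℕ) (x : WithBot ℕ∞) (K : Type u) (_ : Field K) (_ : Algebra k K)
    (_ : Algebra.EssFiniteType k K), x ≤ 0 ∧
    ∀ r : ℕ, 1 ≤ r → HasFibration K (r * b) (r * d) 0 r x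

end Pf72953.Red
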