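import Mathlib
import Pool.Agent.Lib.Pf72953f.ExPow
import Pool.Agent.Lib.Pf72953f.Comp

/-!
MODULE Pf72953h.Ex: existence of the compositum of two fields which are algebraically independent over `K`.
-/

set_option autoImplicit false
set_option linter.style.haveILetI false

namespace Pf72953.Fib

universe u

open ExPowAux in
theorem exists_comp (K G₁ G₂ : Type u) [Field K] [CharZero K] [Field G₁] [Field G₂] [Algebra K G₁]
    [Algebra K G₂] [Algebra.EssFiniteType K G₁] [Algebra.EssFiniteType K G₂] :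
    ∃ (L : Type u) (_ : Field L) (_ : Algebra K L) (_ : Algebra G₁ L) (_ : Algebra G₂ L)
      (_ : IsScalarTower K G₁ L) (_ : IsScalarTower K G₂ L), Comp K G₁ G₂ L := by
  obtain ⟨s₁, hs₁⟩ := exists_tb K G₁
  obtain ⟨s₂, hs₂⟩ := exists_tb K G₂
  obtain ⟨Ω, _, _, _, x, hx⟩ := exists_big K (Fin (dimension K G₁) ⊕ Fin (dimension K G₂))
  obtain ⟨φ₁, hφ₁⟩ := exists_embed hs₁ (hx.comp Sum.inl Sum.inl_injective)
  obtain ⟨φ₂, hφ₂⟩ := exists_embed hs₂ (hx.comp Sum.inr Sum.inr_injective)
  let L : IntermediateField K Ω := IntermediateField.adjoin K (Set.range φ₁ ∪ Set.range φ₂)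
  have hmem₁ : ∀ y, φ₁ y ∈ L := fun y =>
    IntermediateField.subset_adjoin _ _ (Or.inl ⟨y, rfl⟩)
  have hmem₂ : ∀ y, φ₂ y ∈ L := fun y =>
    IntermediateField.subset_adjoin _ _ (Or.inr ⟨y, rfl⟩)
  let i₁ : G₁ →ₐ[K] L := φ₁.codRestrict L.toSubalgebra hmem₁
  let i₂ : G₂ →ₐ[K] L := φ₂.codRestrict L.toSubalgebra hmem₂
  letI a₁ : Algebra G₁ L := i₁.toRingHom.toAlgebra
  letI a₂ : Algebra G₂ L := i₂.toRingHom.toAlgebra
  haveI t₁ : IsScalarTower K G₁ L := IsScalarTower.of_algebraMap_eq fun b => (i₁.commutes b).symm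
  haveI t₂ : IsScalarTower K G₂ L := IsScalarTower.of_algebraMap_eq fun b => (i₂.commutes b).symm
  have hr₁ : Set.range (algebraMap G₁ L) = Set.range i₁ := rfl
  have hr₂ : Set.range (algebraMap G₂ L) = Set.range i₂ := rfl
  have hgen : IntermediateField.adjoin K
      (Set.range (algebraMap G₁ L) ∪ Set.range (algebraMap G₂ L)) = ⊤ := by
    apply IntermediateField.lift_injective L
    rw [IntermediateField.lift_top, IntermediateField.lift_adjoin, Set.image_union, hr₁, hr₂]
    congr 1
    rw [← Set.range_comp, ← Set.range_comp]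
    rfl
  set z : Fin (dimension K G₁) ⊕ Fin (dimension K G₂) → L :=
    Sum.elim (fun a => algebraMap G₁ L (s₁ a)) (fun a => algebraMap G₂ L (s₂ a)) with hz
  have hrc : AlgebraicIndependent K z := by
    apply AlgebraicIndependent.of_comp L.val
    have e : (L.val : L → Ω) ∘ z = x := by
      funext p
      rcases p with p | p
      · exact hφ₁ p
      · exact hφ₂ p
    rw [e]
    exact hx
  have halg : ∀ a : L, IsAlgebraic (Algebra.adjoin K (Set.range z)) a := by
    intro a
    have ha : a ∈ IntermediateField.adjoin K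
        (Set.range (algebraMap G₁ L) ∪ Set.range (algebraMap G₂ L)) := by
      rw [hgen]
      trivial
    induction ha using IntermediateField.adjoin_induction with
    | mem x hx =>
      rcases hx with ⟨y, rfl⟩ | ⟨y, rfl⟩
      · exact isAlgebraic_transport hs₁ (Set.range z) (fun l => ⟨Sum.inl l, rfl⟩) y
      · exact isAlgebraic_transport hs₂ (Set.range z) (fun l => ⟨Sum.inr l, rfl⟩) y
    | algebraMap b =>
      rw [IsScalarTower.algebraMap_apply K (Algebra.adjoin K (Set.range z)) L]
      exact isAlgebraic_algebraMap _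
    | add x y _ _ hx hy => exact hx.add hy
    | inv x _ hx => exact hx.inv
    | mul x y _ _ hx hy => exact hx.mul hy
  have htb : IsTranscendenceBasis K z :=
    hrc.isTranscendenceBasis_iff_isAlgebraic.2 (Algebra.IsAlgebraic.mk halg)
  refine ⟨L, inferInstance, inferInstance, a₁, a₂, t₁, t₂, ?_, hgen⟩
  have := card_eq_of_isTranscendenceBasis htb
  rw [← this]
  simp

end Pf72953.Fib
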