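import Mathlib
import Pool.Agent.Lib.Pf72953f.Res
import Pool.Agent.Lib.Pf72953h.Ex
import Pool.Agent.Lib.Pf72953h.Form
import Pool.Agent.Lib.Pf72953h.Add

/-!
MODULE Pf72953h.Prod: the external product of two fibrations over `K`.
-/

set_option autoImplicit false
set_option linter.style.haveILetI false

open scoped WithZero
open Pf72953.Red Pf72953.Fib.ResAux

namespace Pf72953.Fib

universe u

/-- values in an intermediate field -/
@[reducible]
def toSub {K A L : Type*} [Field K] [Field A] [Field L] [Algebra K L] [Algebra A L]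
    (S : IntermediateField K L) (h : ∀ a, algebraMap A L a ∈ S) : Algebra A S :=
  ((algebraMap A L).codRestrict S.toSubring h).toAlgebra

/-- the generation of a subfield -/
theorem adjoin_sub_top {K L : Type*} [Field K] [Field L] [Algebra K L] (X : Set L)
    (Y : Set (IntermediateField.adjoin K X))
    (h : X ⊆ (Subtype.val : IntermediateField.adjoin K X → L) '' Y) :
    IntermediateField.adjoin K Y = ⊤ := by
  have h1 : IntermediateField.adjoin K X ≤
      (IntermediateField.adjoin K Y).map (IntermediateField.adjoin K X).val := by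
    rw [IntermediateField.adjoin_map]
    exact IntermediateField.adjoin.mono K _ _ h
  rw [_root_.eq_top_iff]
  rintro ⟨z, hz⟩ _
  obtain ⟨y, hy, hyz⟩ := h1 hz
  have h3 : y = ⟨z, hz⟩ := Subtype.ext hyz
  rw [← h3]
  exact hy

theorem exists_prod (K W₁ G₁ W₂ G₂ : Type u) [Field K] [CharZero K] [Field W₁] [Field G₁] [Field W₂]
    [Field G₂] [Algebra K W₁] [Algebra K G₁] [Algebra W₁ G₁] [IsScalarTower K W₁ G₁]
    [Algebra K W₂] [Algebra K G₂] [Algebra W₂ G₂] [IsScalarTower K W₂ G₂]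
    [Algebra.EssFiniteType K G₁] [Algebra.EssFiniteType K G₂] (hK₁ : ClosedIn K G₁)
    (hK₂ : ClosedIn K G₂) (hW₁ : ClosedIn W₁ G₁) (hW₂ : ClosedIn W₂ G₂) :
    ∃ (W L : Type u) (_ : Field W) (_ : Field L) (_ : Algebra K W) (_ : Algebra K L)
      (_ : Algebra W L) (_ : IsScalarTower K W L) (_ : Algebra.EssFiniteType K L),
      ClosedIn K L ∧ ClosedIn W L ∧ dimension K W = dimension K W₁ + dimension K W₂ ∧
      dimension W L = dimension W₁ G₁ + dimension W₂ G₂ ∧
      dimension K L = dimension K G₁ + dimension K G₂ ∧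
      (∀ a b, KodairaGE K W₁ a → KodairaGE K W₂ b → KodairaGE K W (a + b)) ∧
      (∀ a b, KodairaGE W₁ G₁ a → KodairaGE W₂ G₂ b → KodairaGE W L (a + b)) ∧
      (∀ a b, KodairaGE K G₁ a → KodairaGE K G₂ b → KodairaGE K L (a + b)) ∧
      ∀ c, KodairaGE K L c → ∃ a b, a + b = c ∧ KodairaGE K G₁ a ∧ KodairaGE K G₂ b := by
  classical
  haveI : Algebra.EssFiniteType K W₁ := essFiniteType_sub K W₁ G₁
  haveI : Algebra.EssFiniteType K W₂ := essFiniteType_sub K W₂ G₂
  haveI : Algebra.EssFiniteType W₁ G₁ := Algebra.EssFiniteType.of_comp K W₁ G₁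
  haveI : Algebra.EssFiniteType W₂ G₂ := Algebra.EssFiniteType.of_comp K W₂ G₂
  haveI : CharZero W₁ := charZero_of_injective_algebraMap (algebraMap K W₁).injective
  haveI : CharZero W₂ := charZero_of_injective_algebraMap (algebraMap K W₂).injective
  obtain ⟨L, _, _, _, _, _, _, hL⟩ := exists_comp K G₁ G₂
  haveI : Algebra.EssFiniteType K L := by
    obtain ⟨t₁, ht₁⟩ := IntermediateField.fg_top K G₁
    obtain ⟨t₂, ht₂⟩ := IntermediateField.fg_top K G₂
    rw [← IntermediateField.fg_top_iff]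
    refine ⟨t₁.image (algebraMap G₁ L) ∪ t₂.image (algebraMap G₂ L), ?_⟩
    rw [_root_.eq_top_iff, ← hL.gen, IntermediateField.adjoin_le_iff]
    rintro z (⟨b, rfl⟩ | ⟨b, rfl⟩)
    · have hb : b ∈ IntermediateField.adjoin K (t₁ : Set G₁) := by rw [ht₁]; trivial
      have h1 : IntermediateField.adjoin K (t₁ : Set G₁) ≤ (IntermediateField.adjoin K
          (↑(t₁.image (algebraMap G₁ L) ∪ t₂.image (algebraMap G₂ L)) : Set L)).comap
          (IsScalarTower.toAlgHom K G₁ L) := by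
        rw [IntermediateField.adjoin_le_iff]
        intro c hc
        refine IntermediateField.subset_adjoin K _ (Finset.mem_coe.mpr ?_)
        exact Finset.mem_union_left _ (Finset.mem_image_of_mem _ (Finset.mem_coe.mp hc))
      exact h1 hb
    · have hb : b ∈ IntermediateField.adjoin K (t₂ : Set G₂) := by rw [ht₂]; trivial
      have h1 : IntermediateField.adjoin K (t₂ : Set G₂) ≤ (IntermediateField.adjoin K
          (↑(t₁.image (algebraMap G₁ L) ∪ t₂.image (algebraMap G₂ L)) : Set L)).comap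
          (IsScalarTower.toAlgHom K G₂ L) := by
        rw [IntermediateField.adjoin_le_iff]
        intro c hc
        refine IntermediateField.subset_adjoin K _ (Finset.mem_coe.mpr ?_)
        exact Finset.mem_union_right _ (Finset.mem_image_of_mem _ (Finset.mem_coe.mp hc))
      exact h1 hb
  letI aW₁L : Algebra W₁ L := ((algebraMap G₁ L).comp (algebraMap W₁ G₁)).toAlgebra
  letI aW₂L : Algebra W₂ L := ((algebraMap G₂ L).comp (algebraMap W₂ G₂)).toAlgebra
  haveI : IsScalarTower W₁ G₁ L := IsScalarTower.of_algebraMap_eq fun _ => rfl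
  haveI : IsScalarTower W₂ G₂ L := IsScalarTower.of_algebraMap_eq fun _ => rfl
  haveI : IsScalarTower K W₁ L := IsScalarTower.of_algebraMap_eq fun a => by
    rw [IsScalarTower.algebraMap_apply W₁ G₁ L, ← IsScalarTower.algebraMap_apply K W₁ G₁,
      ← IsScalarTower.algebraMap_apply K G₁ L]
  haveI : IsScalarTower K W₂ L := IsScalarTower.of_algebraMap_eq fun a => by
    rw [IsScalarTower.algebraMap_apply W₂ G₂ L, ← IsScalarTower.algebraMap_apply K W₂ G₂,
      ← IsScalarTower.algebraMap_apply K G₂ L]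
  -- the subfields
  let W : IntermediateField K L := IntermediateField.adjoin K
    (Set.range (algebraMap W₁ L) ∪ Set.range (algebraMap W₂ L))
  let M₁ : IntermediateField K L := IntermediateField.adjoin K
    (Set.range (algebraMap G₁ L) ∪ Set.range (algebraMap W₂ L))
  let M₂ : IntermediateField K L := IntermediateField.adjoin K
    (Set.range (algebraMap W₁ L) ∪ Set.range (algebraMap G₂ L))
  have mW₁ : ∀ a : W₁, algebraMap W₁ L a ∈ W := fun a =>
    IntermediateField.subset_adjoin _ _ (Or.inl ⟨a, rfl⟩)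
  have mW₂ : ∀ a : W₂, algebraMap W₂ L a ∈ W := fun a =>
    IntermediateField.subset_adjoin _ _ (Or.inr ⟨a, rfl⟩)
  have m₁G₁ : ∀ a : G₁, algebraMap G₁ L a ∈ M₁ := fun a =>
    IntermediateField.subset_adjoin _ _ (Or.inl ⟨a, rfl⟩)
  have m₁W₂ : ∀ a : W₂, algebraMap W₂ L a ∈ M₁ := fun a =>
    IntermediateField.subset_adjoin _ _ (Or.inr ⟨a, rfl⟩)
  have m₁W₁ : ∀ a : W₁, algebraMap W₁ L a ∈ M₁ := fun a => m₁G₁ (algebraMap W₁ G₁ a)
  have m₂W₁ : ∀ a : W₁, algebraMap W₁ L a ∈ M₂ := fun a =>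
    IntermediateField.subset_adjoin _ _ (Or.inl ⟨a, rfl⟩)
  have m₂G₂ : ∀ a : G₂, algebraMap G₂ L a ∈ M₂ := fun a =>
    IntermediateField.subset_adjoin _ _ (Or.inr ⟨a, rfl⟩)
  have m₂W₂ : ∀ a : W₂, algebraMap W₂ L a ∈ M₂ := fun a => m₂G₂ (algebraMap W₂ G₂ a)
  have hWM₁ : W ≤ M₁ := by
    rw [IntermediateField.adjoin_le_iff]
    rintro _ (⟨a, rfl⟩ | ⟨a, rfl⟩)
    · exact m₁W₁ a
    · exact m₁W₂ a
  have hWM₂ : W ≤ M₂ := by
    rw [IntermediateField.adjoin_le_iff]
    rintro _ (⟨a, rfl⟩ | ⟨a, rfl⟩)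
    · exact m₂W₁ a
    · exact m₂W₂ a
  letI i1 : Algebra W₁ W := toSub W mW₁
  letI i2 : Algebra W₂ W := toSub W mW₂
  letI i3 : Algebra G₁ M₁ := toSub M₁ m₁G₁
  letI i4 : Algebra W₂ M₁ := toSub M₁ m₁W₂
  letI i5 : Algebra W₁ M₁ := toSub M₁ m₁W₁
  letI i6 : Algebra W₁ M₂ := toSub M₂ m₂W₁
  letI i7 : Algebra G₂ M₂ := toSub M₂ m₂G₂
  letI i8 : Algebra W₂ M₂ := toSub M₂ m₂W₂
  letI i9 : Algebra W M₁ := (IntermediateField.inclusion hWM₁).toRingHom.toAlgebra
  letI i10 : Algebra W M₂ := (IntermediateField.inclusion hWM₂).toRingHom.toAlgebra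
  haveI : IsScalarTower W₁ W L := IsScalarTower.of_algebraMap_eq fun _ => rfl
  haveI : IsScalarTower W₂ W L := IsScalarTower.of_algebraMap_eq fun _ => rfl
  haveI : IsScalarTower G₁ M₁ L := IsScalarTower.of_algebraMap_eq fun _ => rfl
  haveI : IsScalarTower W₂ M₁ L := IsScalarTower.of_algebraMap_eq fun _ => rfl
  haveI : IsScalarTower W₁ M₁ L := IsScalarTower.of_algebraMap_eq fun _ => rfl
  haveI : IsScalarTower W₁ M₂ L := IsScalarTower.of_algebraMap_eq fun _ => rfl
  haveI : IsScalarTower G₂ M₂ L := IsScalarTower.of_algebraMap_eq fun _ => rfl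
  haveI : IsScalarTower W₂ M₂ L := IsScalarTower.of_algebraMap_eq fun _ => rfl
  haveI : IsScalarTower W M₁ L := IsScalarTower.of_algebraMap_eq fun _ => rfl
  haveI : IsScalarTower W M₂ L := IsScalarTower.of_algebraMap_eq fun _ => rfl
  haveI : IsScalarTower W₁ W M₁ := IsScalarTower.of_algebraMap_eq fun _ => rfl
  haveI : IsScalarTower W₁ G₁ M₁ := IsScalarTower.of_algebraMap_eq fun _ => rfl
  haveI : IsScalarTower W₂ W M₂ := IsScalarTower.of_algebraMap_eq fun _ => rfl
  haveI : IsScalarTower W₂ G₂ M₂ := IsScalarTower.of_algebraMap_eq fun _ => rfl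
  haveI : IsScalarTower W₂ W M₁ := IsScalarTower.of_algebraMap_eq fun _ => rfl
  haveI : IsScalarTower K W₁ W := IsScalarTower.of_algebraMap_eq fun a => Subtype.ext
    (IsScalarTower.algebraMap_apply K W₁ L a)
  haveI : IsScalarTower K W₂ W := IsScalarTower.of_algebraMap_eq fun a => Subtype.ext
    (IsScalarTower.algebraMap_apply K W₂ L a)
  haveI : IsScalarTower K G₁ M₁ := IsScalarTower.of_algebraMap_eq fun a => Subtype.ext
    (IsScalarTower.algebraMap_apply K G₁ L a)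
  haveI : IsScalarTower K W₂ M₁ := IsScalarTower.of_algebraMap_eq fun a => Subtype.ext
    (IsScalarTower.algebraMap_apply K W₂ L a)
  haveI : IsScalarTower K W₁ M₁ := IsScalarTower.of_algebraMap_eq fun a => Subtype.ext
    (IsScalarTower.algebraMap_apply K W₁ L a)
  haveI : IsScalarTower K W₁ M₂ := IsScalarTower.of_algebraMap_eq fun a => Subtype.ext
    (IsScalarTower.algebraMap_apply K W₁ L a)
  haveI : IsScalarTower K G₂ M₂ := IsScalarTower.of_algebraMap_eq fun a => Subtype.ext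
    (IsScalarTower.algebraMap_apply K G₂ L a)
  haveI : IsScalarTower K W₂ M₂ := IsScalarTower.of_algebraMap_eq fun a => Subtype.ext
    (IsScalarTower.algebraMap_apply K W₂ L a)
  haveI : IsScalarTower K W M₁ := IsScalarTower.of_algebraMap_eq fun _ => rfl
  haveI : IsScalarTower K W M₂ := IsScalarTower.of_algebraMap_eq fun _ => rfl
  haveI : CharZero W := charZero_of_injective_algebraMap (algebraMap K W).injective
  haveI : CharZero M₁ := charZero_of_injective_algebraMap (algebraMap K M₁).injective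
  haveI : Algebra.EssFiniteType K W := essFiniteType_sub K W L
  haveI : Algebra.EssFiniteType K M₁ := essFiniteType_sub K M₁ L
  haveI : Algebra.EssFiniteType K M₂ := essFiniteType_sub K M₂ L
  haveI : Algebra.EssFiniteType W₁ M₁ := Algebra.EssFiniteType.of_comp K W₁ M₁
  haveI : Algebra.EssFiniteType W₂ M₂ := Algebra.EssFiniteType.of_comp K W₂ M₂
  haveI : Algebra.EssFiniteType W M₁ := Algebra.EssFiniteType.of_comp K W M₁
  haveI : Algebra.EssFiniteType W M₂ := Algebra.EssFiniteType.of_comp K W M₂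
  haveI : Algebra.EssFiniteType W L := Algebra.EssFiniteType.of_comp K W L
  haveI : Algebra.EssFiniteType W₂ L := Algebra.EssFiniteType.of_comp K W₂ L
  haveI : FinTrdeg K L := inferInstance
  -- generation
  have gW : IntermediateField.adjoin K
      (Set.range (algebraMap W₁ W) ∪ Set.range (algebraMap W₂ W)) = ⊤ := by
    refine adjoin_sub_top _ _ ?_
    rintro _ (⟨a, rfl⟩ | ⟨a, rfl⟩)
    · exact ⟨algebraMap W₁ W a, Or.inl ⟨a, rfl⟩, rfl⟩
    · exact ⟨algebraMap W₂ W a, Or.inr ⟨a, rfl⟩, rfl⟩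
  have gM₁ : IntermediateField.adjoin K
      (Set.range (algebraMap G₁ M₁) ∪ Set.range (algebraMap W₂ M₁)) = ⊤ := by
    refine adjoin_sub_top _ _ ?_
    rintro _ (⟨a, rfl⟩ | ⟨a, rfl⟩)
    · exact ⟨algebraMap G₁ M₁ a, Or.inl ⟨a, rfl⟩, rfl⟩
    · exact ⟨algebraMap W₂ M₁ a, Or.inr ⟨a, rfl⟩, rfl⟩
  have gM₂ : IntermediateField.adjoin K
      (Set.range (algebraMap W₁ M₂) ∪ Set.range (algebraMap G₂ M₂)) = ⊤ := by
    refine adjoin_sub_top _ _ ?_
    rintro _ (⟨a, rfl⟩ | ⟨a, rfl⟩)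
    · exact ⟨algebraMap W₁ M₂ a, Or.inl ⟨a, rfl⟩, rfl⟩
    · exact ⟨algebraMap G₂ M₂ a, Or.inr ⟨a, rfl⟩, rfl⟩
  have cW : Comp K W₁ W₂ W := Comp.sub (G₁ := G₁) (G₂ := G₂) (L := L) hL gW
  have cM₁ : Comp K G₁ W₂ M₁ := Comp.sub (G₁ := G₁) (G₂ := G₂) (L := L) hL gM₁
  have cM₂ : Comp K W₁ G₂ M₂ := Comp.sub (G₁ := G₁) (G₂ := G₂) (L := L) hL gM₂
  -- dimensions
  have dW := cW.dim
  have dM₁ := cM₁.dim
  have dM₂ := cM₂.dim
  have dL := hL.dim
  have d1 := dim_add K W₁ G₁
  have d2 := dim_add K W₂ G₂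
  have d3 := dim_add K W M₁
  have d4 := dim_add K W M₂
  have d5 := dim_add K W L
  have d6 := dim_add K W₁ W
  have d7 := dim_add K W₁ M₁
  have d8 := dim_add K W₂ W
  have d9 := dim_add K W₂ M₂
  have d10 := dim_add K W₂ M₁
  have d11 := dim_add K W₂ L
  have h₁ : Comp W₁ W G₁ M₁ := by
    refine ⟨by omega, adjoin_top_of gM₁ ?_⟩
    rintro _ (⟨a, rfl⟩ | ⟨a, rfl⟩)
    · exact IntermediateField.subset_adjoin _ _ (Or.inr ⟨a, rfl⟩)
    · exact IntermediateField.subset_adjoin _ _ (Or.inl ⟨algebraMap W₂ W a, rfl⟩)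
  have h₂ : Comp W₂ W G₂ M₂ := by
    refine ⟨by omega, adjoin_top_of gM₂ ?_⟩
    rintro _ (⟨a, rfl⟩ | ⟨a, rfl⟩)
    · exact IntermediateField.subset_adjoin _ _ (Or.inl ⟨algebraMap W₁ W a, rfl⟩)
    · exact IntermediateField.subset_adjoin _ _ (Or.inr ⟨a, rfl⟩)
  have h₀ : Comp W M₁ M₂ L := by
    refine ⟨by omega, adjoin_top_of hL.gen ?_⟩
    rintro _ (⟨a, rfl⟩ | ⟨a, rfl⟩)
    · exact IntermediateField.subset_adjoin _ _ (Or.inl ⟨algebraMap G₁ M₁ a, rfl⟩)
    · exact IntermediateField.subset_adjoin _ _ (Or.inr ⟨algebraMap G₂ M₂ a, rfl⟩)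
  have h₃ : Comp W₂ M₁ G₂ L := by
    refine ⟨by omega, adjoin_top_of hL.gen ?_⟩
    rintro _ (⟨a, rfl⟩ | ⟨a, rfl⟩)
    · exact IntermediateField.subset_adjoin _ _ (Or.inl ⟨algebraMap G₁ M₁ a, rfl⟩)
    · exact IntermediateField.subset_adjoin _ _ (Or.inr ⟨a, rfl⟩)
  refine ⟨W, L, inferInstance, inferInstance, inferInstance, inferInstance, inferInstance,
    inferInstance, inferInstance, ?_, closed_prod h₁ h₃ hW₁ hW₂, by omega, by omega, by omega,
    fun a b ha hb => cW.kod_ge ha hb, fun a b ha hb => kod_add h₁ h₂ h₀ ha hb,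
    fun a b ha hb => hL.kod_ge ha hb, fun c hc => hL.kod_le hK₁ hK₂ hc⟩
  haveI : CharZero G₁ := charZero_of_injective_algebraMap (algebraMap K G₁).injective
  obtain ⟨s, hs⟩ := exists_tb K G₂
  exact hL.closed hK₁ hK₂ hs

end Pf72953.Fib
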