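import Mathlib
import Pool.Agent.Lib.Pf72953r.Fin
import Pool.Agent.Lib.Pf72953h.Defs
import Pool.Agent.Lib.Pf72953h.Prod
import Pool.Agent.Lib.Pf72953h.Curve

/-!
MODULE Pf72953h.Amp: external products of fibrations.
-/

set_option autoImplicit false
set_option linter.style.haveILetI false

open scoped WithZero
open Pf72953 Pf72953.Fib Pf72953.Fib.ResAux Pf72953.Mov

namespace Pf72953.Red

universe u

section

variable {K G : Type u} [Field K] [Field G] [Algebra K G] [FinTrdeg K G]

theorem ge_iff {c : ℕ} : ((c : ℕ∞) : WithBot ℕ∞) ≤ kodairaDim K G ↔ KodairaGE K G c := by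
  constructor
  · intro h
    rcases kodairaDim_eq (k := K) (K := G) with h1 | ⟨c', hc, h1⟩
    · rw [h1] at h
      exact absurd (le_bot_iff.mp h) WithBot.coe_ne_bot
    · rw [h1] at h
      have h2 : c ≤ c' := by exact_mod_cast h
      obtain ⟨m, hm, ω₀, hω₀, hne, f, hf, hff⟩ := hc
      exact ⟨m, hm, ω₀, hω₀, hne, f ∘ Fin.castLE h2, hf.comp _ (Fin.castLE_injective h2),
        fun i => hff _⟩
  · intro h
    exact KodZeroAux.le_kodairaDim h

theorem ne_bot_iff_ge : kodairaDim K G ≠ ⊥ ↔ ((0 : ℕ∞) : WithBot ℕ∞) ≤ kodairaDim K G := by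
  constructor
  · intro h
    rcases kodairaDim_eq (k := K) (K := G) with h1 | ⟨c, hc, h1⟩
    · exact absurd h1 h
    · rw [h1]
      have h2 : (((0 : ℕ) : ℕ∞) : WithBot ℕ∞) ≤ ((c : ℕ∞) : WithBot ℕ∞) := by
        exact_mod_cast Nat.zero_le c
      exact h2
  · intro h h0
    rw [h0] at h
    exact absurd (le_bot_iff.mp h) WithBot.coe_ne_bot

theorem le_of_forall {x : WithBot ℕ∞} (h : ∀ c, KodairaGE K G c → ((c : ℕ∞) : WithBot ℕ∞) ≤ x) :
    kodairaDim K G ≤ x := by
  rcases kodairaDim_eq (k := K) (K := G) with h1 | ⟨c, hc, h1⟩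
  · rw [h1]
    exact bot_le
  · rw [h1]
    exact h c hc

end

/-- external products -/
theorem HasFibration.prod {K : Type u} [Field K] [CharZero K] {b d β φ b' d' β' φ' : ℕ}
    {x x' : WithBot ℕ∞} (h : HasFibration K b d β φ x) (h' : HasFibration K b' d' β' φ' x') :
    HasFibration K (b + b') (d + d') (β + β') (φ + φ') (x + x') := by
  obtain ⟨W₁, G₁, _, _, _, _, _, _, _, a1, a2, a3, a4, a5, a6, a7⟩ := h
  obtain ⟨W₂, G₂, _, _, _, _, _, _, _, b1, b2, b3, b4, b5, b6, b7⟩ := h'
  haveI : Algebra.EssFiniteType K W₁ := essFiniteType_sub K W₁ G₁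
  haveI : Algebra.EssFiniteType K W₂ := essFiniteType_sub K W₂ G₂
  haveI : Algebra.EssFiniteType W₁ G₁ := Algebra.EssFiniteType.of_comp K W₁ G₁
  haveI : Algebra.EssFiniteType W₂ G₂ := Algebra.EssFiniteType.of_comp K W₂ G₂
  obtain ⟨W, L, _, _, _, _, _, _, _, c1, c2, c3, c4, c5, c6, c7, c8, c9⟩ :=
    exists_prod K W₁ G₁ W₂ G₂ a1 b1 a2 b2
  haveI : Algebra.EssFiniteType K W := essFiniteType_sub K W L
  haveI : Algebra.EssFiniteType W L := Algebra.EssFiniteType.of_comp K W L
  refine ⟨W, L, inferInstance, inferInstance, inferInstance, inferInstance, inferInstance,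
    inferInstance, inferInstance, c1, c2, by omega, by omega,
    ge_iff.mpr (c6 _ _ (ge_iff.mp a5) (ge_iff.mp b5)),
    ge_iff.mpr (c7 _ _ (ge_iff.mp a6) (ge_iff.mp b6)), le_antisymm (le_of_forall fun c hc => ?_) ?_⟩
  · obtain ⟨p, q, hpq, hp, hq⟩ := c9 c hc
    have h1 := (ge_iff.mpr hp).trans a7.le
    have h2 := (ge_iff.mpr hq).trans b7.le
    calc ((c : ℕ∞) : WithBot ℕ∞) = ((p : ℕ∞) : WithBot ℕ∞) + ((q : ℕ∞) : WithBot ℕ∞) := by
          rw [← hpq]; push_cast; rfl
      _ ≤ x + x' := add_le_add h1 h2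
  · rw [← a7, ← b7]
    rcases kodairaDim_eq (k := K) (K := G₁) with h1 | ⟨e₁, he₁, h1⟩
    · rw [h1, WithBot.bot_add]
      exact bot_le
    rcases kodairaDim_eq (k := K) (K := G₂) with h2 | ⟨e₂, he₂, h2⟩
    · rw [h2, WithBot.add_bot]
      exact bot_le
    rw [h1, h2]
    have h3 := ge_iff.mpr (c8 _ _ he₁ he₂)
    refine le_trans (le_of_eq ?_) h3
    push_cast
    rfl

/-- external powers -/
theorem HasFibration.pow {K : Type u} [Field K] [CharZero K] {b d β φ : ℕ}
    {x : WithBot ℕ∞} (h : HasFibration K b d β φ x) (r : ℕ) (hr : 1 ≤ r) :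
    HasFibration K (r * b) (r * d) (r * β) (r * φ) (r • x) := by
  induction r, hr using Nat.le_induction with
  | base => simpa using h
  | succ r hr ih =>
    have := ih.prod h
    simpa [add_mul, succ_nsmul] using this

theorem dimension_self_eq (K : Type u) [Field K] [CharZero K] : dimension K K = 0 := by
  obtain ⟨C, _, _, _, -, -, -⟩ := exists_curve K
  have h := dim_add K K C
  omega

theorem kodairaGE_self (K : Type u) [Field K] [CharZero K] : KodairaGE K K 0 := by
  obtain ⟨z, hz⟩ := exists_tb K K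
  refine kod_zero_of hz (m := 1) le_rfl (g := 1) ?_ one_ne_zero
  intro w hw c hc
  exfalso
  obtain ⟨a, ha, ha'⟩ := hw.nontrivial
  exact ha' (hw.const a ha)

/-- a curve of Kodaira dimension one as fibre -/
theorem hasFibration_fibre (K : Type u) [Field K] [CharZero K] : HasFibration K 0 1 0 1 1 := by
  obtain ⟨C, _, _, _, c1, c2, c3⟩ := exists_curve K
  refine ⟨K, C, inferInstance, inferInstance, inferInstance, inferInstance, inferInstance,
    inferInstance, inferInstance, c1, c1, dimension_self_eq K, c2, ge_iff.mpr (kodairaGE_self K),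
    ge_iff.mpr c3, le_antisymm (le_of_forall fun c hc => ?_) (ge_iff.mpr c3)⟩
  have h1 := hc.le_dimension
  rw [c2] at h1
  have h2 : ((c : ℕ∞) : WithBot ℕ∞) ≤ (((1 : ℕ) : ℕ∞) : WithBot ℕ∞) := by exact_mod_cast h1
  exact h2

/-- a curve of Kodaira dimension one as base -/
theorem hasFibration_base (K : Type u) [Field K] [CharZero K] : HasFibration K 1 0 1 0 1 := by
  obtain ⟨C, _, _, _, c1, c2, c3⟩ := exists_curve K
  haveI : CharZero C := charZero_of_injective_algebraMap (algebraMap K C).injective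
  refine ⟨C, C, inferInstance, inferInstance, inferInstance, inferInstance, inferInstance,
    inferInstance, inferInstance, c1, fun a _ => ⟨a, rfl⟩, c2, dimension_self_eq C, ge_iff.mpr c3,
    ge_iff.mpr (kodairaGE_self C), le_antisymm (le_of_forall fun c hc => ?_) (ge_iff.mpr c3)⟩
  have h1 := hc.le_dimension
  rw [c2] at h1
  have h2 : ((c : ℕ∞) : WithBot ℕ∞) ≤ (((1 : ℕ) : ℕ∞) : WithBot ℕ∞) := by exact_mod_cast h1
  exact h2

end Pf72953.Red
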