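import Mathlib
import Pool.Agent.Lib.Pf72953h.Amp

/-!
MODULE Pf72953h.Law: weak forms of Iitaka's conjecture which are equivalent to it.
-/

set_option autoImplicit false
set_option linter.style.haveILetI false

open scoped WithZero
open Pf72953 Pf72953.Fib Pf72953.Fib.ResAux Pf72953.Mov

namespace Pf72953.Red

universe u

theorem nsmul_cast (r e : ℕ) : r • ((e : ℕ∞) : WithBot ℕ∞) = (((r * e : ℕ) : ℕ∞) : WithBot ℕ∞) := by
  induction r with
  | zero => simp
  | succ r ih =>
    rw [succ_nsmul, ih]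
    have h : ((((r + 1) * e : ℕ) : ℕ∞) : WithBot ℕ∞) =
        (((r * e : ℕ) : ℕ∞) : WithBot ℕ∞) + ((e : ℕ∞) : WithBot ℕ∞) := by
      rw [add_mul, one_mul]
      push_cast
      rfl
    rw [h]

theorem nsmul_bot' (r : ℕ) (hr : 1 ≤ r) : r • (⊥ : WithBot ℕ∞) = ⊥ := by
  obtain ⟨s, rfl⟩ : ∃ s, r = s + 1 := ⟨r - 1, by omega⟩
  rw [succ_nsmul, WithBot.add_bot]

theorem nsmul_le_zero' {r : ℕ} (hr : 1 ≤ r) {x : WithBot ℕ∞} (hx : x ≤ 0) : r • x = x := by
  induction x using WithBot.recBotCoe with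
  | bot => exact nsmul_bot' r hr
  | coe y =>
    have h1 : y ≤ 0 := by exact_mod_cast hx
    have h2 : y = 0 := le_antisymm h1 bot_le
    rw [h2, WithBot.coe_zero, smul_zero]

theorem cast_add' (a b : ℕ) : (((a + b : ℕ) : ℕ∞) : WithBot ℕ∞) =
    ((a : ℕ∞) : WithBot ℕ∞) + ((b : ℕ∞) : WithBot ℕ∞) := by
  push_cast
  rfl

/-- the product of the base with a power of a curve -/
theorem HasFibration.addBase {K : Type u} [Field K] [CharZero K] {b d β φ : ℕ}
    {x : WithBot ℕ∞} (h : HasFibration K b d β φ x) (m : ℕ) :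
    HasFibration K (b + m) d (β + m) φ (x + ((m : ℕ∞) : WithBot ℕ∞)) := by
  induction m with
  | zero => simpa using h
  | succ m ih =>
    have h1 := ih.prod (hasFibration_base K)
    have e : x + ((m : ℕ∞) : WithBot ℕ∞) + 1 = x + (((m + 1 : ℕ) : ℕ∞) : WithBot ℕ∞) := by
      rw [cast_add', ← add_assoc]
      rfl
    rw [e] at h1
    simpa [add_assoc] using h1

/-- the product of the fibres with a power of a curve -/
theorem HasFibration.addFibre {K : Type u} [Field K] [CharZero K] {b d β φ : ℕ}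
    {x : WithBot ℕ∞} (h : HasFibration K b d β φ x) (m : ℕ) :
    HasFibration K b (d + m) β (φ + m) (x + ((m : ℕ∞) : WithBot ℕ∞)) := by
  induction m with
  | zero => simpa using h
  | succ m ih =>
    have h1 := ih.prod (hasFibration_fibre K)
    have e : x + ((m : ℕ∞) : WithBot ℕ∞) + 1 = x + (((m + 1 : ℕ) : ℕ∞) : WithBot ℕ∞) := by
      rw [cast_add', ← add_assoc]
      rfl
    rw [e] at h1
    simpa [add_assoc] using h1

section

variable {k : Type u} [Field k] [CharZero k]

theorem le_cast {K G : Type u} [Field K] [Field G] [Algebra K G] [FinTrdeg K G] {N : ℕ} :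
    kodairaDim K G ≤ ((N : ℕ∞) : WithBot ℕ∞) ↔
      ¬ (((N + 1 : ℕ) : ℕ∞) : WithBot ℕ∞) ≤ kodairaDim K G := by
  constructor
  · intro h h1
    have h2 := h1.trans h
    have h4 : N + 1 ≤ N := by exact_mod_cast h2
    omega
  · intro h
    rcases kodairaDim_eq (k := K) (K := G) with h1 | ⟨c, hc, h1⟩
    · rw [h1]
      exact bot_le
    · rw [h1] at h ⊢
      by_contra hcon
      have h2 : ¬ c ≤ N := fun h3 => hcon (by exact_mod_cast h3)
      apply h
      have h3 : N + 1 ≤ c := by omega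
      exact_mod_cast h3

theorem not_cast_succ_le {N : ℕ} {x : WithBot ℕ∞} (h : x ≤ ((N : ℕ∞) : WithBot ℕ∞))
    (h1 : (((N + 1 : ℕ) : ℕ∞) : WithBot ℕ∞) ≤ x) : False := by
  have h2 := h1.trans h
  have h4 : N + 1 ≤ N := by exact_mod_cast h2
  omega

theorem bounded_of_iitaka {b d n : ℕ} (M N : ℕ) (h : Iitaka k b d n) :
    BoundedFibre k M N b d n := by
  intro K W G _ _ _ _ _ _ _ _ _ _ h1 h2 hd hW hG
  haveI : CharZero K := charZero_of_injective_algebraMap (algebraMap k K).injective
  haveI : Algebra.EssFiniteType W G := Algebra.EssFiniteType.of_comp K W G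
  have h3 := h K W G h1 h2 hd
  unfold IitakaIneq at h3
  rw [le_cast]
  intro h4
  have h5 := (add_le_add hW h4).trans (h3.trans hG)
  rw [← cast_add'] at h5
  have h6 : M + (N + 1) ≤ M := by exact_mod_cast h5
  omega

/-- any bound gives the bound zero -/
theorem bounded_zero {M N b d n : ℕ}
    (h : BoundedFibre k M N ((N + 1) * b + M) ((N + 1) * d) ((N + 1) * n + M)) :
    BoundedFibre k 0 0 b d n := by
  intro K W G _ _ _ _ _ _ _ _ _ _ h1 h2 hd hW hG
  haveI : CharZero K := charZero_of_injective_algebraMap (algebraMap k K).injective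
  haveI : Algebra.EssFiniteType K W := essFiniteType_sub K W G
  haveI : Algebra.EssFiniteType W G := Algebra.EssFiniteType.of_comp K W G
  rw [le_cast]
  intro hcon
  have h3 : HasFibration K (dimension K W) (dimension W G) 0 1 (kodairaDim K G) :=
    ⟨W, G, inferInstance, inferInstance, inferInstance, inferInstance, inferInstance,
      inferInstance, inferInstance, h1, h2, rfl, rfl, hW, hcon, rfl⟩
  have h4 := (h3.pow (N + 1) (by omega)).addBase M
  rw [nsmul_le_zero' (by omega) hG] at h4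
  obtain ⟨W', G', _, _, _, _, _, _, _, a1, a2, a3, a4, a5, a6, a7⟩ := h4
  have hdim := dim_add K W G
  have hdim' := dim_add K W' G'
  have e1 : (N + 1) * dimension K W ≤ (N + 1) * b := Nat.mul_le_mul_left _ hd.1
  have e2 : (N + 1) * dimension W G ≤ (N + 1) * d := Nat.mul_le_mul_left _ hd.2.1
  have e3 : (N + 1) * dimension K G ≤ (N + 1) * n := Nat.mul_le_mul_left _ hd.2.2
  have e4 : (N + 1) * dimension K G = (N + 1) * dimension K W + (N + 1) * dimension W G := by
    rw [← hdim]; ring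
  have a8 : kodairaDim K G' ≤ ((M : ℕ∞) : WithBot ℕ∞) := by
    rw [a7]
    exact (add_le_add hG le_rfl).trans (by simp)
  have h5 := h K W' G' a1 a2 ⟨by omega, by omega, by omega⟩ (by simpa using a5) a8
  exact not_cast_succ_le h5 (by simpa using a6)

/-- the bound zero gives the weak form -/
theorem weak_of_bounded_zero {b d n : ℕ} (h : BoundedFibre k 0 0 b (d + 1) (n + 1)) :
    WeakIitaka k b d n := by
  refine weak_iff.mpr ⟨?_, ?_⟩
  · intro K W G _ _ _ _ _ _ _ _ _ _ h1 h2 hd hW hF hG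
    haveI : CharZero K := charZero_of_injective_algebraMap (algebraMap k K).injective
    haveI : Algebra.EssFiniteType K W := essFiniteType_sub K W G
    haveI : Algebra.EssFiniteType W G := Algebra.EssFiniteType.of_comp K W G
    have h3 : HasFibration K (dimension K W) (dimension W G) 0 0 ⊥ :=
      ⟨W, G, inferInstance, inferInstance, inferInstance, inferInstance, inferInstance,
        inferInstance, inferInstance, h1, h2, rfl, rfl, ne_bot_iff_ge.mp hW, ne_bot_iff_ge.mp hF,
        hG⟩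
    obtain ⟨W', G', _, _, _, _, _, _, _, a1, a2, a3, a4, a5, a6, a7⟩ := h3.addFibre 1
    rw [WithBot.bot_add] at a7
    have hdim := dim_add K W G
    have hdim' := dim_add K W' G'
    have e1 := hd.1
    have e2 := hd.2.1
    have e3 := hd.2.2
    have h5 := h K W' G' a1 a2 ⟨by omega, by omega, by omega⟩ a5 (a7.le.trans bot_le)
    exact not_cast_succ_le h5 a6
  · intro K W G _ _ _ _ _ _ _ _ _ _ h1 h2 hd hG hW
    haveI : Algebra.EssFiniteType K W := essFiniteType_sub K W G
    exact h K W G h1 h2 ⟨hd.1, hd.2.1.trans (by omega), hd.2.2.trans (by omega)⟩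
      (ne_bot_iff_ge.mp hW) hG.le

/-- any bound gives the weak form -/
theorem weak_of_bounded {M N b d n : ℕ}
    (h : BoundedFibre k M N ((N + 1) * b + M) ((N + 1) * (d + 1)) ((N + 1) * (n + 1) + M)) :
    WeakIitaka k b d n :=
  weak_of_bounded_zero (bounded_zero h)

theorem bounded_zero_of_not_linear (h : ¬ LinearFailure k) (b d n : ℕ) :
    BoundedFibre k 0 0 b d n := by
  intro K W G _ _ _ _ _ _ _ _ _ _ h1 h2 _ hW hG
  haveI : CharZero K := charZero_of_injective_algebraMap (algebraMap k K).injective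
  haveI : Algebra.EssFiniteType K W := essFiniteType_sub K W G
  haveI : Algebra.EssFiniteType W G := Algebra.EssFiniteType.of_comp K W G
  rw [le_cast]
  intro hcon
  apply h
  refine ⟨dimension K W, dimension W G, kodairaDim K G, K, inferInstance, inferInstance,
    inferInstance, hG, fun r hr => ?_⟩
  have h3 : HasFibration K (dimension K W) (dimension W G) 0 1 (kodairaDim K G) :=
    ⟨W, G, inferInstance, inferInstance, inferInstance, inferInstance, inferInstance,
      inferInstance, inferInstance, h1, h2, rfl, rfl, hW, hcon, rfl⟩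
  have h4 := h3.pow r hr
  rw [nsmul_le_zero' hr hG] at h4
  simpa using h4

/-- the weak form gives Iitaka's inequality for the total spaces with a smooth complete model -/
theorem ineq_of_weak {b d n : ℕ} (h : WeakIitaka k b (2 * d) (n + d)) {K W G : Type u} [Field K]
    [Field W] [Field G] [Algebra k K] [Algebra K W] [Algebra K G] [Algebra W G]
    [IsScalarTower K W G] [Algebra.EssFiniteType k K] [Algebra.EssFiniteType K G]
    (M : SmoothModel K G) (h1 : ClosedIn K G) (h2 : ClosedIn W G) (hd : DimLE K W G b d n) :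
    IitakaIneq K W G := by
  haveI : CharZero K := charZero_of_injective_algebraMap (algebraMap k K).injective
  obtain ⟨h3, h4⟩ := zero_of_weak h
  exact iitaka_of_zero_smooth (h3 K W G h1 h2 hd) (h4.ext (K := K)) M hd

/-- the zero-infinity law -/
theorem model_or_linear : IitakaModel k ∨ LinearFailure k := by
  by_cases h : LinearFailure k
  · exact Or.inr h
  · refine Or.inl fun K W G _ _ _ _ _ _ _ _ _ _ M h1 h2 => ?_
    exact ineq_of_weak (weak_of_bounded_zero (bounded_zero_of_not_linear h _ _ _)) M h1 h2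
      ⟨le_rfl, le_rfl, le_rfl⟩

theorem iitaka_of_model (hR : Resolution k) (h : IitakaModel k) (b d n : ℕ) : Iitaka k b d n := by
  intro K W G _ _ _ _ _ _ _ _ _ _ h1 h2 _
  obtain ⟨M⟩ := hR K G
  exact h K W G M h1 h2

theorem not_linear_of_sublinear {M : ℕ} (h : SublinearFibre k M) : ¬ LinearFailure k := by
  rintro ⟨b, d, x, K, _, _, _, hx, hK⟩
  haveI : CharZero K := charZero_of_injective_algebraMap (algebraMap k K).injective
  obtain ⟨C, hC⟩ := h (b + d + 1)
  obtain ⟨W, G, _, _, _, _, _, _, _, a1, a2, a3, a4, a5, a6, a7⟩ :=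
    (hK (C + M + 1) (by omega)).addBase M
  have a8 : kodairaDim K G ≤ ((M : ℕ∞) : WithBot ℕ∞) := by
    rw [a7]
    exact (add_le_add hx le_rfl).trans (by rw [zero_add])
  have h1 := hC K W G a1 a2 (by simpa using a5) a8 (C + M + 1) a6
  have hdim := dim_add K W G
  have e1 : (b + d + 1) * (C + M + 1) = (C + M + 1) * b + (C + M + 1) * d + (C + M + 1) := by ring
  omega

theorem sublinear_of_bounded {M N : ℕ} (h : ∀ b d n, BoundedFibre k M N b d n) :
    SublinearFibre k M := by
  intro δ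
  refine ⟨δ * N, fun K W G _ _ _ _ _ _ _ _ _ _ h1 h2 h3 h4 c hc => ?_⟩
  have h5 := h _ _ _ K W G h1 h2 ⟨le_rfl, le_rfl, le_rfl⟩ h3 h4
  have h6 := hc.trans h5
  have h7 : c ≤ N := by exact_mod_cast h6
  exact (Nat.mul_le_mul_left δ h7).trans (Nat.le_add_left _ _)

theorem not_linear_of_iitaka (h : ∀ b d n, Iitaka k b d n) : ¬ LinearFailure k :=
  not_linear_of_sublinear (M := 0) (sublinear_of_bounded (N := 0)
    fun b d n => bounded_of_iitaka 0 0 (h b d n))

theorem le_cast_of_le {x : WithBot ℕ∞} {a b : ℕ} (h : a ≤ b) (hb : ((b : ℕ∞) : WithBot ℕ∞) ≤ x) :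
    ((a : ℕ∞) : WithBot ℕ∞) ≤ x := by
  refine le_trans ?_ hb
  exact_mod_cast h

/-- a fraction of Iitaka's inequality gives the sublinear bound -/
theorem sublinear_of_fractional {q M : ℕ} (h : FractionalIitaka k q M) : SublinearFibre k M := by
  intro δ
  obtain ⟨C, hC⟩ := h δ
  refine ⟨C + δ * q * M + δ * M, fun K W G _ _ _ _ _ _ _ _ _ _ h1 h2 h3 h4 c hc => ?_⟩
  by_cases h5 : ((M : ℕ∞) : WithBot ℕ∞) ≤ kodairaDim W G
  · obtain ⟨e, he, h6⟩ := hC K W G h1 h2 h3 h5 c hc
    have h7 : e ≤ M := by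
      rcases he with rfl | he
      · exact Nat.zero_le _
      · have h8 := he.trans h4
        exact_mod_cast h8
    have h9 : δ * q * e ≤ δ * q * M := Nat.mul_le_mul_left _ h7
    omega
  · have h7 : c ≤ M := by
      by_contra hcon
      exact h5 (le_cast_of_le (by omega) hc)
    have h9 : δ * c ≤ δ * M := Nat.mul_le_mul_left _ h7
    omega

/-- the sublinear bound gives Iitaka's inequality for the total spaces with a smooth complete model -/
theorem model_of_sublinear {M : ℕ} (h : SublinearFibre k M) : IitakaModel k :=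
  model_or_linear.resolve_right (not_linear_of_sublinear h)

theorem exists_nat_of_ineq {K W G : Type u} [Field K] [Field W] [Field G] [Algebra K W]
    [Algebra K G] [Algebra W G] (h3 : IitakaIneq K W G) {β φ : ℕ}
    (hβ : ((β : ℕ∞) : WithBot ℕ∞) ≤ kodairaDim K W)
    (hφ : ((φ : ℕ∞) : WithBot ℕ∞) ≤ kodairaDim W G) : AtLeast K G (β + φ) := by
  unfold IitakaIneq at h3
  refine Or.inr ?_
  rw [cast_add']
  exact (add_le_add hβ hφ).trans h3

theorem fractional_of_iitaka (h : ∀ b d n, Iitaka k b d n) {q : ℕ} (hq : 1 ≤ q) (M : ℕ) :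
    FractionalIitaka k q M := by
  intro δ
  refine ⟨0, fun K W G _ _ _ _ _ _ _ _ _ _ h1 h2 h3 h4 φ hφ => ?_⟩
  refine ⟨M + φ, exists_nat_of_ineq (h _ _ _ K W G h1 h2 ⟨le_rfl, le_rfl, le_rfl⟩) h3 hφ, ?_⟩
  have e1 : δ * φ ≤ δ * q * (M + φ) := by
    rw [mul_assoc]
    refine Nat.mul_le_mul_left _ ?_
    calc φ = 1 * φ := (one_mul φ).symm
      _ ≤ q * (M + φ) := Nat.mul_le_mul hq (Nat.le_add_left _ _)
  omega

theorem almost_of_iitaka (h : IitakaOver k) (q : ℕ) : AlmostIitaka k q := by
  intro δ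
  refine ⟨0, fun B E _ _ _ _ _ _ _ h1 h2 _ _ _ β φ hβ hφ => ?_⟩
  exact ⟨β + φ, exists_nat_of_ineq (h B E h1 h2) hβ hφ, by omega⟩

theorem near_of_iitaka (h : IitakaOver k) (g : ℕ → ℕ) (N : ℕ) : NearIitaka k g N := by
  intro B E _ _ _ _ _ _ _ h1 h2 _ _ _ β φ hβ hφ
  exact ⟨β + φ, exists_nat_of_ineq (h B E h1 h2) hβ hφ, by omega⟩

theorem over_of_iitaka (h : ∀ b d n, Iitaka k b d n) {K : Type u} [Field K] [Algebra k K]
    [Algebra.EssFiniteType k K] : IitakaOver K :=
  fun B E _ _ _ _ _ _ _ h1 h2 => h _ _ _ K B E h1 h2 ⟨le_rfl, le_rfl, le_rfl⟩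

/-- the external product of the `r`-th power of a fibration with two `m`-th powers of curves -/
theorem exists_curvePower {K W G : Type u} [Field K] [CharZero K] [Field W] [Field G] [Algebra K W]
    [Algebra K G] [Algebra W G] [IsScalarTower K W G] [Algebra.EssFiniteType K G]
    (h1 : ClosedIn K G) (h2 : ClosedIn W G) {β φ : ℕ}
    (hW : kodairaDim K W = ((β : ℕ∞) : WithBot ℕ∞)) (hF : kodairaDim W G = ((φ : ℕ∞) : WithBot ℕ∞))
    (r m : ℕ) (hr : 1 ≤ r) :
    HasFibration K (r * dimension K W + m) (r * dimension W G + m) (r * β + m) (r * φ + m)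
      (r • kodairaDim K G + ((m : ℕ∞) : WithBot ℕ∞) + ((m : ℕ∞) : WithBot ℕ∞)) := by
  haveI : Algebra.EssFiniteType K W := essFiniteType_sub K W G
  haveI : Algebra.EssFiniteType W G := Algebra.EssFiniteType.of_comp K W G
  have h3 : HasFibration K (dimension K W) (dimension W G) β φ (kodairaDim K G) :=
    ⟨W, G, inferInstance, inferInstance, inferInstance, inferInstance, inferInstance,
      inferInstance, inferInstance, h1, h2, rfl, rfl, hW.ge, hF.ge, rfl⟩
  exact ((h3.pow r hr).addBase m).addFibre m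

theorem AtLeast.le_of_eq {K G : Type u} [Field K] [Field G] [Algebra K G] {e c : ℕ}
    (h : AtLeast K G e) (hc : kodairaDim K G = ((c : ℕ∞) : WithBot ℕ∞)) : e ≤ c := by
  rcases h with rfl | h
  · exact Nat.zero_le _
  · rw [hc] at h
    exact_mod_cast h

theorem AtLeast.eq_zero {K G : Type u} [Field K] [Field G] [Algebra K G] {e : ℕ}
    (h : AtLeast K G e) (hc : kodairaDim K G = ⊥) : e = 0 := by
  rcases h with rfl | h
  · rfl
  · rw [hc] at h
    exact absurd (le_bot_iff.mp h) WithBot.coe_ne_bot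

/-- the almost general type case, up to `o(dim)`, is everything -/
theorem iitaka_of_almost {K : Type u} [Field K] [CharZero K] {q : ℕ} (h : AlmostIitaka K q) :
    IitakaOver K := by
  intro W G _ _ _ _ _ _ _ h1 h2
  haveI : Algebra.EssFiniteType K W := essFiniteType_sub K W G
  haveI : Algebra.EssFiniteType W G := Algebra.EssFiniteType.of_comp K W G
  unfold IitakaIneq
  rcases kodairaDim_eq (k := K) (K := W) with hW | ⟨β, -, hW⟩
  · rw [hW, WithBot.bot_add]
    exact bot_le
  rcases kodairaDim_eq (k := W) (K := G) with hF | ⟨φ, -, hF⟩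
  · rw [hF, WithBot.add_bot]
    exact bot_le
  obtain ⟨b', hb'⟩ : ∃ b', b' = dimension K W := ⟨_, rfl⟩
  obtain ⟨d', hd'⟩ : ∃ d', d' = dimension W G := ⟨_, rfl⟩
  -- the product of the `r`-th power with `m`-th powers of curves has dimension `r D`
  obtain ⟨D, hD⟩ : ∃ D, D = (1 + 2 * q) * (b' + d') + 2 := ⟨_, rfl⟩
  obtain ⟨C, hC⟩ := h (D + 1)
  obtain ⟨r, hr⟩ : ∃ r, r = C + 1 := ⟨_, rfl⟩
  obtain ⟨m, hm⟩ : ∃ m, m = q * (r * b') + q * (r * d') + r := ⟨_, rfl⟩
  have hmD : r * b' + r * d' + 2 * m = r * D := by rw [hm, hD]; ring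
  obtain ⟨W', G', _, _, _, _, _, _, _, a1, a2, a3, a4, a5, a6, a7⟩ :=
    exists_curvePower h1 h2 hW hF r m (by omega)
  rw [← hb'] at a3
  rw [← hd'] at a4
  haveI : Algebra.EssFiniteType K W' := essFiniteType_sub K W' G'
  haveI : Algebra.EssFiniteType W' G' := Algebra.EssFiniteType.of_comp K W' G'
  have hdim' := dim_add K W' G'
  have g1 : AlmostGeneral K W' q := by
    refine ⟨_, a5, ?_⟩
    rw [a3]
    have e2 : q * (r * b' + m) = q * (r * b') + q * m := by ring
    have e3 : q * (r * β + m) = q * (r * β) + q * m := by ring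
    omega
  have g2 : AlmostGeneral W' G' q := by
    refine ⟨_, a6, ?_⟩
    rw [a4]
    have e2 : q * (r * d' + m) = q * (r * d') + q * m := by ring
    have e3 : q * (r * φ + m) = q * (r * φ) + q * m := by ring
    omega
  have e6 : (D + 1) * (2 * m) = D * (2 * m) + 2 * m := by ring
  have e7 : r * D ≤ D * (2 * m) := by
    rw [mul_comm r D]
    exact Nat.mul_le_mul_left _ (by omega)
  rw [hW, hF]
  rcases kodairaDim_eq (k := K) (K := G) with hG | ⟨e₀, -, hG⟩
  · exfalso
    rw [hG, nsmul_bot' _ (by omega), WithBot.bot_add, WithBot.bot_add] at a7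
    obtain ⟨e, he, h6⟩ := hC W' G' a1 a2 g1 g2 (Or.inl a7) _ _ a5 a6
    rw [he.eq_zero a7] at h6
    have h11 : (D + 1) * (2 * m) ≤ (D + 1) * (r * β + m + (r * φ + m)) :=
      Nat.mul_le_mul_left _ (by omega)
    omega
  · rw [hG, nsmul_cast, ← cast_add', ← cast_add'] at a7
    have g3 : AlmostGeneral K G' q := by
      refine ⟨_, a7.ge, ?_⟩
      rw [← hdim', a3, a4]
      have e2 : q * (r * b' + m + (r * d' + m)) = q * (r * b') + q * (r * d') + q * m + q * m := by
        ring
      have e3 : q * (r * e₀ + m + m) = q * (r * e₀) + q * m + q * m := by ring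
      omega
    obtain ⟨e, he, h6⟩ := hC W' G' a1 a2 g1 g2 (Or.inr g3) _ _ a5 a6
    have h7 : e ≤ r * e₀ + m + m := he.le_of_eq a7
    rw [hG, ← cast_add']
    have h8 : β + φ ≤ e₀ := by
      by_contra hcon
      push Not at hcon
      have h9 : r * (e₀ + 1) ≤ r * (β + φ) := Nat.mul_le_mul_left _ hcon
      have h10 : (D + 1) * e ≤ (D + 1) * (r * e₀ + m + m) := Nat.mul_le_mul_left _ h7
      have h11 : (D + 1) * (r * e₀ + m + m + r) ≤ (D + 1) * (r * β + m + (r * φ + m)) := by
        refine Nat.mul_le_mul_left _ ?_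
        have e4 : r * (β + φ) = r * β + r * φ := by ring
        have e5 : r * (e₀ + 1) = r * e₀ + r := by ring
        omega
      have e8 : (D + 1) * (r * e₀ + m + m + r) = (D + 1) * (r * e₀ + m + m) + r * D + r := by ring
      omega
    exact_mod_cast h8

/-- the case of general type up to an arbitrarily slowly growing function, up to a constant, is everything -/
theorem iitaka_of_near {K : Type u} [Field K] [CharZero K] {g : ℕ → ℕ}
    (hg : Filter.Tendsto g Filter.atTop Filter.atTop) {N : ℕ} (h : NearIitaka K g N) :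
    IitakaOver K := by
  intro W G _ _ _ _ _ _ _ h1 h2
  haveI : Algebra.EssFiniteType K W := essFiniteType_sub K W G
  haveI : Algebra.EssFiniteType W G := Algebra.EssFiniteType.of_comp K W G
  unfold IitakaIneq
  rcases kodairaDim_eq (k := K) (K := W) with hW | ⟨β, -, hW⟩
  · rw [hW, WithBot.bot_add]
    exact bot_le
  rcases kodairaDim_eq (k := W) (K := G) with hF | ⟨φ, -, hF⟩
  · rw [hF, WithBot.add_bot]
    exact bot_le
  obtain ⟨b', hb'⟩ : ∃ b', b' = dimension K W := ⟨_, rfl⟩
  obtain ⟨d', hd'⟩ : ∃ d', d' = dimension W G := ⟨_, rfl⟩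
  obtain ⟨m₀, hm₀⟩ := Filter.eventually_atTop.mp
    (hg.eventually_ge_atTop ((N + 1) * b' + (N + 1) * d'))
  obtain ⟨r, hr⟩ : ∃ r, r = N + 1 := ⟨_, rfl⟩
  rw [← hr] at hm₀
  obtain ⟨m, hm⟩ : ∃ m, m = m₀ + r := ⟨_, rfl⟩
  obtain ⟨W', G', _, _, _, _, _, _, _, a1, a2, a3, a4, a5, a6, a7⟩ :=
    exists_curvePower h1 h2 hW hF r m (by omega)
  rw [← hb'] at a3
  rw [← hd'] at a4
  haveI : Algebra.EssFiniteType K W' := essFiniteType_sub K W' G'
  haveI : Algebra.EssFiniteType W' G' := Algebra.EssFiniteType.of_comp K W' G'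
  have hdim' := dim_add K W' G'
  have g1 : GeneralUpTo K W' (g (dimension K W')) := by
    refine ⟨_, a5, ?_⟩
    have e1 := hm₀ (dimension K W') (by omega)
    omega
  have g2 : GeneralUpTo W' G' (g (dimension W' G')) := by
    refine ⟨_, a6, ?_⟩
    have e1 := hm₀ (dimension W' G') (by omega)
    omega
  rw [hW, hF]
  rcases kodairaDim_eq (k := K) (K := G) with hG | ⟨e₀, -, hG⟩
  · exfalso
    rw [hG, nsmul_bot' _ (by omega), WithBot.bot_add, WithBot.bot_add] at a7
    obtain ⟨e, he, h6⟩ := h W' G' a1 a2 g1 g2 (Or.inl a7) _ _ a5 a6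
    rw [he.eq_zero a7] at h6
    omega
  · rw [hG, nsmul_cast, ← cast_add', ← cast_add'] at a7
    have g3 : GeneralUpTo K G' (g (dimension K G')) := by
      refine ⟨_, a7.ge, ?_⟩
      have e1 := hm₀ (dimension K G') (by omega)
      omega
    obtain ⟨e, he, h6⟩ := h W' G' a1 a2 g1 g2 (Or.inr g3) _ _ a5 a6
    have h7 : e ≤ r * e₀ + m + m := he.le_of_eq a7
    rw [hG, ← cast_add']
    have h8 : β + φ ≤ e₀ := by
      by_contra hcon
      push Not at hcon
      have h9 : r * (e₀ + 1) ≤ r * (β + φ) := Nat.mul_le_mul_left _ hcon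
      have e4 : r * (β + φ) = r * β + r * φ := by ring
      have e5 : r * (e₀ + 1) = r * e₀ + r := by ring
      omega
    exact_mod_cast h8

end

end Pf72953.Red
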